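import Mathlib

set_option autoImplicit false

/-!
# Convergence to period-two solutions for the equations without constant term in the numerator

For `A, B` nonnegative and `D` positive every admissible solution of
`x_{n+1} = x_{n-1} / (A + B x_n + x_{n-1} + D x_{n-2})` converges to a period-two solution.
With `W_n = log (x_{n+2} / x_n)` and `E_n = (-1)^n W_n` one has
`p E_{n-1} + b E_n + q E_{n-2}` as upper and lower bounds of `E_{n+1}` (different coefficients), where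
`0 ≤ b`, `0 < q` and `b + q ≤ p ≤ 1 - min (x_{n+1}, x_{n+3})`. If three consecutive `E` have one sign
the two subsequences are monotone from there on; otherwise `|E_{n+1}| ≤ p max (|E_n|, ..., |E_{n-4}|)`,
which gives convergence when the solution is bounded away from `0`. The remaining solutions come
close to the cycle `0, 1 - A`, which is treated by hand in the three cases `B + D < 1`, `= 1`, `> 1`.
-/

open Filter Topology

namespace Pool.Agent.RatDiff.AlphaZero

/-- working form: nonnegative everywhere, `α = 0`. -/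
structure Sol (A B D : ℝ) (x : ℕ → ℝ) : Prop where
  nonneg : ∀ n, 0 ≤ x n
  den_pos : ∀ n, 0 < A + B * x (n + 2) + x (n + 1) + D * x n
  step : ∀ n, x (n + 3) = x (n + 1) / (A + B * x (n + 2) + x (n + 1) + D * x n)

section basic
variable {A B D : ℝ} {x : ℕ → ℝ}

lemma Sol.shift (h : Sol A B D x) (N : ℕ) : Sol A B D (fun n => x (N + n)) :=
  ⟨fun n => h.nonneg _, fun n => h.den_pos (N + n), fun n => h.step (N + n)⟩

lemma Sol.mul (h : Sol A B D x) (n : ℕ) :
    x (n + 3) * (A + B * x (n + 2) + x (n + 1) + D * x n) = x (n + 1) := by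
  rw [h.step n]; exact div_mul_cancel₀ _ (h.den_pos n).ne'

lemma Sol.le_one (h : Sol A B D x) (hA : 0 ≤ A) (hB : 0 ≤ B) (hD : 0 < D) (n : ℕ) :
    x (n + 3) ≤ 1 := by
  rw [h.step n, div_le_one (h.den_pos n)]
  have h1 := mul_nonneg hB (h.nonneg (n + 2))
  have h2 := mul_nonneg hD.le (h.nonneg n)
  linarith

/-- comparison of two steps -/
lemma quot_le {u u' c c' : ℝ} (hu' : 0 ≤ u') (huu : u' ≤ u) (hc : 0 ≤ c) (hcc : c ≤ c')
    (hd : 0 < c + u) (hd' : 0 < c' + u') : u' / (c' + u') ≤ u / (c + u) := by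
  rw [div_le_div_iff₀ hd' hd]
  nlinarith [mul_le_mul huu hcc hc (by linarith)]

def TP (x : ℕ → ℝ) (n : ℕ) : Prop := x n ≤ x (n + 2) ∧ x (n + 3) ≤ x (n + 1) ∧ x (n + 2) ≤ x (n + 4)
def TM (x : ℕ → ℝ) (n : ℕ) : Prop := x (n + 2) ≤ x n ∧ x (n + 1) ≤ x (n + 3) ∧ x (n + 4) ≤ x (n + 2)

lemma Sol.TP_step (h : Sol A B D x) (hA : 0 ≤ A) (hB : 0 ≤ B) (hD : 0 < D) {n : ℕ}
    (ht : TP x n) : TM x (n + 1) := by
  obtain ⟨h1, h2, h3⟩ := ht
  refine ⟨h2, h3, ?_⟩
  show x (n + 5) ≤ x (n + 3)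
  have e1 := h.step (n + 2)
  have e2 := h.step n
  have d1 := h.den_pos (n + 2)
  have d2 := h.den_pos n
  simp only [Nat.add_assoc] at e1 d1
  norm_num at e1 d1
  have := quot_le (u := x (n + 1)) (u' := x (n + 3)) (c := A + B * x (n + 2) + D * x n)
    (c' := A + B * x (n + 4) + D * x (n + 2)) (h.nonneg _) h2
    (by have := mul_nonneg hB (h.nonneg (n + 2)); have := mul_nonneg hD.le (h.nonneg n); linarith)
    (by nlinarith) (by linarith) (by linarith)
  have a1 : A + B * x (n + 4) + D * x (n + 2) + x (n + 3) = A + B * x (n + 4) + x (n + 3) + D * x (n + 2) := by ring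
  have a2 : A + B * x (n + 2) + D * x n + x (n + 1) = A + B * x (n + 2) + x (n + 1) + D * x n := by ring
  rw [a1, a2] at this
  exact e1.trans_le (this.trans_eq e2.symm)

lemma Sol.TM_step (h : Sol A B D x) (hA : 0 ≤ A) (hB : 0 ≤ B) (hD : 0 < D) {n : ℕ}
    (ht : TM x n) : TP x (n + 1) := by
  obtain ⟨h1, h2, h3⟩ := ht
  refine ⟨h2, h3, ?_⟩
  show x (n + 3) ≤ x (n + 5)
  have e1 := h.step (n + 2)
  have e2 := h.step n
  have d1 := h.den_pos (n + 2)
  have d2 := h.den_pos n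
  simp only [Nat.add_assoc] at e1 d1
  norm_num at e1 d1
  have := quot_le (u' := x (n + 1)) (u := x (n + 3)) (c' := A + B * x (n + 2) + D * x n)
    (c := A + B * x (n + 4) + D * x (n + 2)) (h.nonneg _) h2
    (by have := mul_nonneg hB (h.nonneg (n + 4)); have := mul_nonneg hD.le (h.nonneg (n + 2)); linarith)
    (by nlinarith) (by linarith) (by linarith)
  have a1 : A + B * x (n + 4) + D * x (n + 2) + x (n + 3) = A + B * x (n + 4) + x (n + 3) + D * x (n + 2) := by ring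
  have a2 : A + B * x (n + 2) + D * x n + x (n + 1) = A + B * x (n + 2) + x (n + 1) + D * x n := by ring
  rw [a1, a2] at this
  exact e2.trans_le (this.trans_eq e1.symm)

/-- The two parity classes (starting at some index) converge. -/
def Conv (x : ℕ → ℝ) : Prop :=
  ∃ (N : ℕ) (p q : ℝ), Tendsto (fun k => x (N + 2 * k)) atTop (𝓝 p) ∧
    Tendsto (fun k => x (N + 2 * k + 1)) atTop (𝓝 q)

lemma Conv.of_shift {M : ℕ} (h : Conv (fun n => x (M + n))) : Conv x := by
  obtain ⟨N, p, q, h1, h2⟩ := h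
  refine ⟨M + N, p, q, ?_, ?_⟩
  · simpa [Nat.add_assoc] using h1
  · simpa [Nat.add_assoc] using h2

lemma conv_of_anti {f : ℕ → ℝ} (h0 : ∀ k, 0 ≤ f k) (ha : ∀ k, f (k + 1) ≤ f k) :
    ∃ p, Tendsto f atTop (𝓝 p) :=
  ⟨_, tendsto_atTop_ciInf (antitone_nat_of_succ_le ha) ⟨0, by rintro _ ⟨k, rfl⟩; exact h0 k⟩⟩

lemma conv_of_mono {f : ℕ → ℝ} {C : ℝ} (h0 : ∀ k, f k ≤ C) (ha : ∀ k, f k ≤ f (k + 1)) :
    ∃ p, Tendsto f atTop (𝓝 p) :=
  ⟨_, tendsto_atTop_ciSup (monotone_nat_of_le_succ ha) ⟨C, by rintro _ ⟨k, rfl⟩; exact h0 k⟩⟩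

lemma Sol.conv_TP (h : Sol A B D x) (hA : 0 ≤ A) (hB : 0 ≤ B) (hD : 0 < D) {n : ℕ}
    (ht : TP x n) : Conv x := by
  have key : ∀ k, TP x (n + 2 * k) := by
    intro k
    induction k with
    | zero => exact ht
    | succ k ih =>
      have := h.TM_step hA hB hD (h.TP_step hA hB hD ih)
      have e : n + 2 * (k + 1) = n + 2 * k + 1 + 1 := by ring
      rw [e]; exact this
  -- shift by n+4 so that everything is ≤ 1
  obtain ⟨p, hp⟩ := conv_of_mono (f := fun k => x (n + 4 + 2 * k)) (C := 1)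
    (fun k => by
      have := h.le_one hA hB hD (n + 1 + 2 * k)
      have e : n + 4 + 2 * k = n + 1 + 2 * k + 3 := by ring
      simp only [e]; exact this)
    (fun k => by
      have := (key (k + 2)).1
      have e1 : n + 4 + 2 * k = n + 2 * (k + 2) := by ring
      have e2 : n + 4 + 2 * (k + 1) = n + 2 * (k + 2) + 2 := by ring
      simp only [e1, e2]; exact this)
  obtain ⟨q, hq⟩ := conv_of_anti (f := fun k => x (n + 4 + 2 * k + 1))
    (fun k => h.nonneg _)
    (fun k => by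
      have := (key (k + 2)).2.1
      have e1 : n + 4 + 2 * k + 1 = n + 2 * (k + 2) + 1 := by ring
      have e2 : n + 4 + 2 * (k + 1) + 1 = n + 2 * (k + 2) + 3 := by ring
      simp only [e1, e2]; exact this)
  exact ⟨n + 4, p, q, hp, hq⟩

lemma Sol.conv_TM (h : Sol A B D x) (hA : 0 ≤ A) (hB : 0 ≤ B) (hD : 0 < D) {n : ℕ}
    (ht : TM x n) : Conv x := h.conv_TP hA hB hD (h.TM_step hA hB hD ht)

lemma Sol.conv_zero (h : Sol A B D x) (hA : 0 ≤ A) (hB : 0 ≤ B) (hD : 0 < D) {n : ℕ}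
    (hz : x (n + 1) = 0) : Conv x := by
  have z3 : x (n + 3) = 0 := by rw [h.step n, hz, zero_div]
  have z5 : x (n + 5) = 0 := by
    have := h.step (n + 2)
    simp only [Nat.add_assoc] at this
    norm_num at this
    rw [this, z3, zero_div]
  rcases le_total (x (n + 4)) (x (n + 2)) with h4 | h4
  · exact h.conv_TP hA hB hD (n := n + 1)
      ⟨by show x (n + 1) ≤ x (n + 3); rw [hz, z3], h4, by show x (n + 3) ≤ x (n + 5); rw [z3, z5]⟩
  · exact h.conv_TM hA hB hD (n := n + 1)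
      ⟨by show x (n + 3) ≤ x (n + 1); rw [hz, z3], h4, by show x (n + 5) ≤ x (n + 3); rw [z3, z5]⟩

lemma Sol.conv_bigA (h : Sol A B D x) (hA : 1 ≤ A) (hB : 0 ≤ B) (hD : 0 < D) : Conv x := by
  have key : ∀ n, x (n + 3) ≤ x (n + 1) := by
    intro n
    rw [h.step n, div_le_iff₀ (h.den_pos n)]
    have h1 := mul_nonneg hB (h.nonneg (n + 2))
    have h2 := mul_nonneg hD.le (h.nonneg n)
    have h3 := h.nonneg (n + 1)
    nlinarith
  obtain ⟨p, hp⟩ := conv_of_anti (f := fun k => x (1 + 2 * k)) (fun k => h.nonneg _)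
    (fun k => by
      have := key (2 * k)
      have e1 : 1 + 2 * (k + 1) = 2 * k + 3 := by ring
      have e2 : 1 + 2 * k = 2 * k + 1 := by ring
      simp only [e1, e2]; exact this)
  obtain ⟨q, hq⟩ := conv_of_anti (f := fun k => x (1 + 2 * k + 1)) (fun k => h.nonneg _)
    (fun k => by
      have := key (2 * k + 1)
      have e1 : 1 + 2 * (k + 1) + 1 = 2 * k + 1 + 3 := by ring
      have e2 : 1 + 2 * k + 1 = 2 * k + 1 + 1 := by ring
      simp only [e1, e2]; exact this)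
  exact ⟨1, p, q, hp, hq⟩

end basic

section contraction

/-- abstract one-sided bound -/
lemma contr_upper {θ V e0 e1 e2 e3 e4 e5 : ℝ} (hV : 0 ≤ V) (hθ0 : 0 ≤ θ) (hθ : θ ≤ 1)
    (h0 : e0 ≤ V) (h2 : e2 ≤ V) (h3 : e3 ≤ V) (h4 : e4 ≤ V)
    (hu3 : ∃ p b q : ℝ, 0 ≤ b ∧ 0 < q ∧ b + q ≤ p ∧ p ≤ θ ∧ e3 ≤ p * e1 + b * e2 + q * e0)
    (hl4 : ∃ p b q : ℝ, 0 ≤ b ∧ 0 < q ∧ b + q ≤ p ∧ p ≤ θ ∧ p * e2 + b * e3 + q * e1 ≤ e4)
    (hu5 : ∃ p b q : ℝ, 0 ≤ b ∧ 0 < q ∧ b + q ≤ p ∧ p ≤ θ ∧ e5 ≤ p * e3 + b * e4 + q * e2)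
    (hn : ¬ (0 ≤ e3 ∧ 0 ≤ e4 ∧ 0 ≤ e5)) : e5 ≤ θ * V := by
  obtain ⟨p, b, q, hb, hq, hbq, hp, h5⟩ := hu5
  have hpV : p * V ≤ θ * V := mul_le_mul_of_nonneg_right hp hV
  have hp0 : 0 ≤ p := by linarith
  have hθV : 0 ≤ θ * V := mul_nonneg hθ0 hV
  rcases le_or_gt e3 0 with c3 | c3
  · have t1 : p * e3 ≤ 0 := mul_nonpos_of_nonneg_of_nonpos hp0 c3
    have t2 : b * e4 ≤ b * V := mul_le_mul_of_nonneg_left h4 hb
    have t3 : q * e2 ≤ q * V := mul_le_mul_of_nonneg_left h2 hq.le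
    have t4 : (b + q) * V ≤ p * V := mul_le_mul_of_nonneg_right hbq hV
    nlinarith
  · rcases le_or_gt 0 e4 with c4 | c4
    · have : e5 < 0 := by
        by_contra hc; exact hn ⟨c3.le, c4, not_lt.mp hc⟩
      linarith
    · have t2 : b * e4 ≤ 0 := mul_nonpos_of_nonneg_of_nonpos hb c4.le
      rcases le_or_gt e2 0 with c2 | c2
      · have t3 : q * e2 ≤ 0 := mul_nonpos_of_nonneg_of_nonpos hq.le c2
        have t1 : p * e3 ≤ p * V := mul_le_mul_of_nonneg_left h3 hp0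
        linarith
      · -- pattern (+,+,-)
        obtain ⟨p', b', q', hb', hq', hbq', hp', h4'⟩ := hl4
        obtain ⟨p2, b2, q2, hb2, hq2, hbq2, hp2, h3'⟩ := hu3
        have s1 : e1 + e2 < 0 := by
          by_contra hc
          push Not at hc
          have : 0 ≤ q' * (e1 + e2) := mul_nonneg hq'.le hc
          have u1 : q' * e2 ≤ p' * e2 := mul_le_mul_of_nonneg_right (by linarith) c2.le
          have u2 : 0 ≤ b' * e3 := mul_nonneg hb' c3.le
          nlinarith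
        have e1n : e1 < 0 := by linarith
        have s2 : e3 ≤ q2 * (e1 + e0) := by
          have u1 : p2 * e1 ≤ (b2 + q2) * e1 := mul_le_mul_of_nonpos_right hbq2 e1n.le
          have u2 : b2 * (e1 + e2) ≤ 0 := mul_nonpos_of_nonneg_of_nonpos hb2 s1.le
          nlinarith
        have s3 : 0 < e1 + e0 := by
          by_contra hc
          push Not at hc
          have := mul_nonpos_of_nonneg_of_nonpos hq2.le hc
          linarith
        have s4 : e3 ≤ e1 + e0 := by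
          have : q2 * (e1 + e0) ≤ 1 * (e1 + e0) := mul_le_mul_of_nonneg_right (by linarith) s3.le
          linarith
        have s5 : e2 + e3 ≤ V := by linarith
        have u3 : q * e2 ≤ p * e2 := mul_le_mul_of_nonneg_right (by linarith) c2.le
        have u4 : p * (e2 + e3) ≤ p * V := mul_le_mul_of_nonneg_left s5 hp0
        nlinarith

def UB (θ : ℝ) (E : ℕ → ℝ) : Prop := ∀ n, ∃ p b q : ℝ, 0 ≤ b ∧ 0 < q ∧ b + q ≤ p ∧ p ≤ θ ∧
  E (n + 3) ≤ p * E (n + 1) + b * E (n + 2) + q * E n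
def LB (θ : ℝ) (E : ℕ → ℝ) : Prop := ∀ n, ∃ p b q : ℝ, 0 ≤ b ∧ 0 < q ∧ b + q ≤ p ∧ p ≤ θ ∧
  p * E (n + 1) + b * E (n + 2) + q * E n ≤ E (n + 3)

lemma LB.neg {θ : ℝ} {E : ℕ → ℝ} (h : LB θ E) : UB θ (fun n => - E n) := by
  intro n
  obtain ⟨p, b, q, hb, hq, hbq, hp, h1⟩ := h n
  exact ⟨p, b, q, hb, hq, hbq, hp, by simp only; nlinarith⟩
lemma UB.neg {θ : ℝ} {E : ℕ → ℝ} (h : UB θ E) : LB θ (fun n => - E n) := by
  intro n
  obtain ⟨p, b, q, hb, hq, hbq, hp, h1⟩ := h n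
  exact ⟨p, b, q, hb, hq, hbq, hp, by simp only; nlinarith⟩

lemma contr_up {θ V : ℝ} {E : ℕ → ℝ} (hV : 0 ≤ V) (hθ0 : 0 ≤ θ) (hθ : θ ≤ 1)
    (hU : UB θ E) (hL : LB θ E) (hn : ∀ n, ¬ (0 ≤ E n ∧ 0 ≤ E (n + 1) ∧ 0 ≤ E (n + 2)))
    (n : ℕ) (hb : ∀ j < 5, |E (n + j)| ≤ V) : E (n + 5) ≤ θ * V := by
  have b0 := (abs_le.mp (hb 0 (by norm_num))).2
  have b2 := (abs_le.mp (hb 2 (by norm_num))).2
  have b3 := (abs_le.mp (hb 3 (by norm_num))).2
  have b4 := (abs_le.mp (hb 4 (by norm_num))).2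
  exact contr_upper (e0 := E n) (e1 := E (n + 1)) (e2 := E (n + 2)) (e3 := E (n + 3))
    (e4 := E (n + 4)) (e5 := E (n + 5)) hV hθ0 hθ b0 b2 b3 b4 (hU n) (hL (n + 1)) (hU (n + 2))
    (hn (n + 3))

lemma contr_abs {θ V : ℝ} {E : ℕ → ℝ} (hV : 0 ≤ V) (hθ0 : 0 ≤ θ) (hθ : θ ≤ 1)
    (hU : UB θ E) (hL : LB θ E) (hn : ∀ n, ¬ (0 ≤ E n ∧ 0 ≤ E (n + 1) ∧ 0 ≤ E (n + 2)))
    (hn' : ∀ n, ¬ (E n ≤ 0 ∧ E (n + 1) ≤ 0 ∧ E (n + 2) ≤ 0))
    (n : ℕ) (hb : ∀ j < 5, |E (n + j)| ≤ V) : |E (n + 5)| ≤ θ * V := by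
  refine abs_le.mpr ⟨?_, contr_up hV hθ0 hθ hU hL hn n hb⟩
  have := contr_up (E := fun n => - E n) hV hθ0 hθ hL.neg hU.neg
    (fun n => by simpa using hn' n) n (fun j hj => by simpa using hb j hj)
  linarith

/-- geometric decay -/
lemma geom_decay {θ : ℝ} {E : ℕ → ℝ} (hθ0 : 0 ≤ θ) (hθ : θ < 1)
    (hU : UB θ E) (hL : LB θ E) (hn : ∀ n, ¬ (0 ≤ E n ∧ 0 ≤ E (n + 1) ∧ 0 ≤ E (n + 2)))
    (hn' : ∀ n, ¬ (E n ≤ 0 ∧ E (n + 1) ≤ 0 ∧ E (n + 2) ≤ 0)) :
    ∃ K r : ℝ, 0 ≤ K ∧ 0 < r ∧ r < 1 ∧ ∀ n, |E n| ≤ K * r ^ n := by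
  set r : ℝ := 1 - (1 - θ) / 5 with hr
  have r0 : 0 < r := by rw [hr]; linarith
  have r1 : r < 1 := by rw [hr]; linarith
  have r5 : θ ≤ r ^ 5 := by
    have := one_add_mul_le_pow (a := -((1 - θ) / 5)) (by linarith) 5
    have e : (1 : ℝ) + -((1 - θ) / 5) = r := by rw [hr]; ring
    rw [e] at this
    push_cast at this
    linarith
  set K : ℝ := (|E 0| + |E 1| + |E 2| + |E 3| + |E 4|) / r ^ 4 with hK
  have K0 : 0 ≤ K := by positivity
  refine ⟨K, r, K0, r0, r1, ?_⟩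
  have hKr : |E 0| + |E 1| + |E 2| + |E 3| + |E 4| = K * r ^ 4 := by
    rw [hK]; field_simp
  have a0 := abs_nonneg (E 0)
  have a1 := abs_nonneg (E 1)
  have a2 := abs_nonneg (E 2)
  have a3 := abs_nonneg (E 3)
  have a4 := abs_nonneg (E 4)
  have key : ∀ n, ∀ j < 5, |E (n + j)| ≤ K * r ^ (n + j) := by
    intro n
    induction n with
    | zero =>
      intro j hj
      have hle : K * r ^ 4 ≤ K * r ^ (0 + j) :=
        mul_le_mul_of_nonneg_left (pow_le_pow_of_le_one r0.le r1.le (by omega)) K0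
      interval_cases j <;> (simp only [Nat.zero_add] at *; linarith)
    | succ k ih =>
      intro j hj
      rcases Nat.lt_or_ge j 4 with h4 | h4
      · have := ih (j + 1) (by omega)
        have e : k + 1 + j = k + (j + 1) := by ring
        rw [e]; exact this
      · have j4 : j = 4 := by omega
        subst j4
        have hV : 0 ≤ K * r ^ k := by positivity
        have := contr_abs hV hθ0 hθ.le hU hL hn hn' k (fun j hj => (ih j hj).trans
          (mul_le_mul_of_nonneg_left (pow_le_pow_of_le_one r0.le r1.le (by omega)) K0))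
        have e : k + 1 + 4 = k + 5 := by ring
        rw [e]
        calc |E (k + 5)| ≤ θ * (K * r ^ k) := this
          _ ≤ r ^ 5 * (K * r ^ k) := mul_le_mul_of_nonneg_right r5 hV
          _ = K * r ^ (k + 5) := by ring
  intro n
  simpa using key n 0 (by norm_num)

/-- weighted AM-GM in the form needed -/
lemma jensen4 {a b c d u v w S : ℝ} (ha : 0 ≤ a) (hb : 0 ≤ b) (hc : 0 ≤ c) (hd : 0 ≤ d)
    (hS : S = a + b + c + d) (hS0 : 0 < S) :
    (b * u + c * v + d * w) / S ≤ Real.log ((a + b * Real.exp u + c * Real.exp v + d * Real.exp w) / S) := by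
  set L := (b * u + c * v + d * w) / S with hL
  have hLS : L * S = b * u + c * v + d * w := by rw [hL]; field_simp
  have hexp : ∀ t : ℝ, Real.exp L * (1 + t - L) ≤ Real.exp t := by
    intro t
    have h1 : (t - L) + 1 ≤ Real.exp (t - L) := Real.add_one_le_exp _
    have h2 : Real.exp t = Real.exp L * Real.exp (t - L) := by rw [← Real.exp_add]; ring_nf
    rw [h2]
    exact mul_le_mul_of_nonneg_left (by linarith) (Real.exp_pos L).le
  have h0 := hexp 0
  rw [Real.exp_zero] at h0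
  have hu := hexp u
  have hv := hexp v
  have hw := hexp w
  have hmain : Real.exp L * S ≤ a + b * Real.exp u + c * Real.exp v + d * Real.exp w := by
    have m0 := mul_le_mul_of_nonneg_left h0 ha
    have m1 := mul_le_mul_of_nonneg_left hu hb
    have m2 := mul_le_mul_of_nonneg_left hv hc
    have m3 := mul_le_mul_of_nonneg_left hw hd
    have id : Real.exp L * S = a * (Real.exp L * (1 + 0 - L)) + b * (Real.exp L * (1 + u - L))
        + c * (Real.exp L * (1 + v - L)) + d * (Real.exp L * (1 + w - L)) := by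
      have : a * (Real.exp L * (1 + 0 - L)) + b * (Real.exp L * (1 + u - L))
        + c * (Real.exp L * (1 + v - L)) + d * (Real.exp L * (1 + w - L))
        = Real.exp L * ((a + b + c + d) + (b * u + c * v + d * w) - L * (a + b + c + d)) := by ring
      rw [this, ← hS, ← hLS]; ring
    rw [id]; linarith
  rw [Real.le_log_iff_exp_le (by
    apply div_pos _ hS0
    exact lt_of_lt_of_le (mul_pos (Real.exp_pos L) hS0) hmain), le_div_iff₀ hS0]
  exact hmain

end contraction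

section positive
variable {A B D : ℝ} {x : ℕ → ℝ}

noncomputable def W (x : ℕ → ℝ) (n : ℕ) : ℝ := Real.log (x (n + 2)) - Real.log (x n)
noncomputable def E (x : ℕ → ℝ) (n : ℕ) : ℝ := (-1) ^ n * W x n

lemma W_nonneg (hpos : ∀ n, 0 < x n) (n : ℕ) : 0 ≤ W x n ↔ x n ≤ x (n + 2) := by
  unfold W
  rw [sub_nonneg, Real.log_le_log_iff (hpos _) (hpos _)]

lemma W_nonpos (hpos : ∀ n, 0 < x n) (n : ℕ) : W x n ≤ 0 ↔ x (n + 2) ≤ x n := by
  unfold W
  rw [sub_nonpos, Real.log_le_log_iff (hpos _) (hpos _)]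

lemma exp_W (hpos : ∀ n, 0 < x n) (n : ℕ) : x n * Real.exp (W x n) = x (n + 2) := by
  unfold W
  rw [Real.exp_sub, Real.exp_log (hpos _), Real.exp_log (hpos _)]
  field_simp [(hpos n).ne']

lemma exp_neg_W (hpos : ∀ n, 0 < x n) (n : ℕ) : x (n + 2) * Real.exp (-W x n) = x n := by
  unfold W
  rw [neg_sub, Real.exp_sub, Real.exp_log (hpos _), Real.exp_log (hpos _)]
  field_simp [(hpos (n + 2)).ne']

lemma Sol.step5 (h : Sol A B D x) (n : ℕ) :
    x (n + 5) = x (n + 3) / (A + B * x (n + 4) + x (n + 3) + D * x (n + 2)) := by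
  have := h.step (n + 2)
  simp only [Nat.add_assoc] at this
  norm_num at this
  exact this

lemma Sol.den5 (h : Sol A B D x) (n : ℕ) :
    0 < A + B * x (n + 4) + x (n + 3) + D * x (n + 2) := by
  have := h.den_pos (n + 2)
  simp only [Nat.add_assoc] at this
  norm_num at this
  exact this

lemma Sol.W_rec (h : Sol A B D x) (hpos : ∀ n, 0 < x n) (n : ℕ) :
    W x (n + 3) = W x (n + 1) - (Real.log (A + B * x (n + 4) + x (n + 3) + D * x (n + 2))
      - Real.log (A + B * x (n + 2) + x (n + 1) + D * x n)) := by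
  have e5 : Real.log (x (n + 5)) = Real.log (x (n + 3)) -
      Real.log (A + B * x (n + 4) + x (n + 3) + D * x (n + 2)) := by
    rw [h.step5 n, Real.log_div (hpos _).ne' (h.den5 n).ne']
  have e3 : Real.log (x (n + 3)) = Real.log (x (n + 1)) -
      Real.log (A + B * x (n + 2) + x (n + 1) + D * x n) := by
    rw [h.step n, Real.log_div (hpos _).ne' (h.den_pos n).ne']
  have w3 : W x (n + 3) = Real.log (x (n + 5)) - Real.log (x (n + 3)) := rfl
  have w1 : W x (n + 1) = Real.log (x (n + 3)) - Real.log (x (n + 1)) := rfl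
  rw [w3, w1, e5]; linarith

lemma Sol.W_upper (h : Sol A B D x) (hA : 0 ≤ A) (hB : 0 ≤ B) (hD : 0 < D)
    (hpos : ∀ n, 0 < x n) {c : ℝ} (hc : ∀ n, c ≤ x n) (n : ℕ) :
    ∃ p b q : ℝ, 0 ≤ b ∧ 0 < q ∧ b + q ≤ p ∧ p ≤ 1 - c ∧
      W x (n + 3) ≤ p * W x (n + 1) - b * W x (n + 2) - q * W x n := by
  set S := A + B * x (n + 2) + x (n + 1) + D * x n with hS
  have hS0 : 0 < S := h.den_pos n
  have hj := jensen4 (a := A) (b := B * x (n + 2)) (c := x (n + 1)) (d := D * x n)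
    (u := W x (n + 2)) (v := W x (n + 1)) (w := W x n) (S := S) hA
    (mul_nonneg hB (hpos _).le) (hpos _).le (mul_nonneg hD.le (hpos _).le) hS hS0
  have e2 := exp_W hpos (n + 2)
  have e1 := exp_W hpos (n + 1)
  have e0 := exp_W hpos n
  have e2' : x (n + 2) * Real.exp (W x (n + 2)) = x (n + 4) := e2
  have e1' : x (n + 1) * Real.exp (W x (n + 1)) = x (n + 3) := e1
  rw [mul_assoc B (x (n + 2)) (Real.exp _), e2', e1', mul_assoc D (x n) (Real.exp _), e0,
    Real.log_div (h.den5 n).ne' hS0.ne'] at hj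
  have hrec := h.W_rec hpos n
  rw [← hS] at hrec
  have hx3 : x (n + 3) = x (n + 1) / S := h.step n
  refine ⟨1 - x (n + 1) / S, B * x (n + 2) / S, D * x n / S,
    div_nonneg (mul_nonneg hB (hpos _).le) hS0.le, div_pos (mul_pos hD (hpos _)) hS0, ?_, ?_, ?_⟩
  · have : B * x (n + 2) / S + D * x n / S + x (n + 1) / S ≤ 1 := by
      rw [← add_div, ← add_div, div_le_one hS0]; linarith
    linarith
  · rw [← hx3]; linarith [hc (n + 3)]
  · have : (B * x (n + 2) * W x (n + 2) + x (n + 1) * W x (n + 1) + D * x n * W x n) / S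
        = B * x (n + 2) / S * W x (n + 2) + x (n + 1) / S * W x (n + 1) + D * x n / S * W x n := by
      ring
    rw [this] at hj
    linarith

lemma Sol.W_lower (h : Sol A B D x) (hA : 0 ≤ A) (hB : 0 ≤ B) (hD : 0 < D)
    (hpos : ∀ n, 0 < x n) {c : ℝ} (hc : ∀ n, c ≤ x n) (n : ℕ) :
    ∃ p b q : ℝ, 0 ≤ b ∧ 0 < q ∧ b + q ≤ p ∧ p ≤ 1 - c ∧
      p * W x (n + 1) - b * W x (n + 2) - q * W x n ≤ W x (n + 3) := by
  set S := A + B * x (n + 4) + x (n + 3) + D * x (n + 2) with hS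
  have hS0 : 0 < S := h.den5 n
  have hj := jensen4 (a := A) (b := B * x (n + 4)) (c := x (n + 3)) (d := D * x (n + 2))
    (u := -W x (n + 2)) (v := -W x (n + 1)) (w := -W x n) (S := S) hA
    (mul_nonneg hB (hpos _).le) (hpos _).le (mul_nonneg hD.le (hpos _).le) hS hS0
  have e2' : x (n + 4) * Real.exp (-W x (n + 2)) = x (n + 2) := exp_neg_W hpos (n + 2)
  have e1' : x (n + 3) * Real.exp (-W x (n + 1)) = x (n + 1) := exp_neg_W hpos (n + 1)
  have e0 := exp_neg_W hpos n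
  rw [mul_assoc B (x (n + 4)) (Real.exp _), e2', e1', mul_assoc D (x (n + 2)) (Real.exp _), e0,
    Real.log_div (h.den_pos n).ne' hS0.ne'] at hj
  have hrec := h.W_rec hpos n
  rw [← hS] at hrec
  have hx3 : x (n + 5) = x (n + 3) / S := h.step5 n
  refine ⟨1 - x (n + 3) / S, B * x (n + 4) / S, D * x (n + 2) / S,
    div_nonneg (mul_nonneg hB (hpos _).le) hS0.le, div_pos (mul_pos hD (hpos _)) hS0, ?_, ?_, ?_⟩
  · have : B * x (n + 4) / S + D * x (n + 2) / S + x (n + 3) / S ≤ 1 := by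
      rw [← add_div, ← add_div, div_le_one hS0]; linarith
    linarith
  · rw [← hx3]; linarith [hc (n + 5)]
  · have : (B * x (n + 4) * -W x (n + 2) + x (n + 3) * -W x (n + 1) + D * x (n + 2) * -W x n) / S
        = -(B * x (n + 4) / S * W x (n + 2) + x (n + 3) / S * W x (n + 1)
          + D * x (n + 2) / S * W x n) := by
      ring
    rw [this] at hj
    linarith

lemma E_even {n : ℕ} (hn : Even n) : E x n = W x n := by
  unfold E; rw [hn.neg_one_pow, one_mul]
lemma E_odd {n : ℕ} (hn : Odd n) : E x n = - W x n := by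
  unfold E; rw [hn.neg_one_pow]; ring

lemma Sol.E_UB (h : Sol A B D x) (hA : 0 ≤ A) (hB : 0 ≤ B) (hD : 0 < D)
    (hpos : ∀ n, 0 < x n) {c : ℝ} (hc : ∀ n, c ≤ x n) : UB (1 - c) (E x) := by
  intro n
  rcases Nat.even_or_odd n with hn | hn
  · obtain ⟨p, b, q, hb, hq, hbq, hp, h1⟩ := h.W_lower hA hB hD hpos hc n
    refine ⟨p, b, q, hb, hq, hbq, hp, ?_⟩
    rw [E_even hn, E_odd (n := n + 1) (by rcases hn with ⟨m, hm⟩; grind),
      E_even (n := n + 2) (by rcases hn with ⟨m, hm⟩; grind), E_odd (n := n + 3) (by rcases hn with ⟨m, hm⟩; grind)]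
    linarith
  · obtain ⟨p, b, q, hb, hq, hbq, hp, h1⟩ := h.W_upper hA hB hD hpos hc n
    refine ⟨p, b, q, hb, hq, hbq, hp, ?_⟩
    rw [E_odd hn, E_even (n := n + 1) (by rcases hn with ⟨m, hm⟩; grind),
      E_odd (n := n + 2) (by rcases hn with ⟨m, hm⟩; grind), E_even (n := n + 3) (by rcases hn with ⟨m, hm⟩; grind)]
    linarith

lemma Sol.E_LB (h : Sol A B D x) (hA : 0 ≤ A) (hB : 0 ≤ B) (hD : 0 < D)
    (hpos : ∀ n, 0 < x n) {c : ℝ} (hc : ∀ n, c ≤ x n) : LB (1 - c) (E x) := by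
  intro n
  rcases Nat.even_or_odd n with hn | hn
  · obtain ⟨p, b, q, hb, hq, hbq, hp, h1⟩ := h.W_upper hA hB hD hpos hc n
    refine ⟨p, b, q, hb, hq, hbq, hp, ?_⟩
    rw [E_even hn, E_odd (n := n + 1) (by rcases hn with ⟨m, hm⟩; grind),
      E_even (n := n + 2) (by rcases hn with ⟨m, hm⟩; grind), E_odd (n := n + 3) (by rcases hn with ⟨m, hm⟩; grind)]
    linarith
  · obtain ⟨p, b, q, hb, hq, hbq, hp, h1⟩ := h.W_lower hA hB hD hpos hc n
    refine ⟨p, b, q, hb, hq, hbq, hp, ?_⟩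
    rw [E_odd hn, E_even (n := n + 1) (by rcases hn with ⟨m, hm⟩; grind),
      E_odd (n := n + 2) (by rcases hn with ⟨m, hm⟩; grind), E_even (n := n + 3) (by rcases hn with ⟨m, hm⟩; grind)]
    linarith

lemma E_not_nonneg (hpos : ∀ n, 0 < x n) (h1 : ∀ n, ¬ TP x n) (h2 : ∀ n, ¬ TM x n) (n : ℕ) :
    ¬ (0 ≤ E x n ∧ 0 ≤ E x (n + 1) ∧ 0 ≤ E x (n + 2)) := by
  rintro ⟨a, b, c⟩
  rcases Nat.even_or_odd n with hn | hn
  · rw [E_even hn] at a
    rw [E_odd (n := n + 1) (by rcases hn with ⟨m, hm⟩; grind)] at b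
    rw [E_even (n := n + 2) (by rcases hn with ⟨m, hm⟩; grind)] at c
    exact h1 n ⟨(W_nonneg hpos n).mp a, (W_nonpos hpos (n + 1)).mp (by linarith),
      (W_nonneg hpos (n + 2)).mp c⟩
  · rw [E_odd hn] at a
    rw [E_even (n := n + 1) (by rcases hn with ⟨m, hm⟩; grind)] at b
    rw [E_odd (n := n + 2) (by rcases hn with ⟨m, hm⟩; grind)] at c
    exact h2 n ⟨(W_nonpos hpos n).mp (by linarith), (W_nonneg hpos (n + 1)).mp b,
      (W_nonpos hpos (n + 2)).mp (by linarith)⟩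

lemma E_not_nonpos (hpos : ∀ n, 0 < x n) (h1 : ∀ n, ¬ TP x n) (h2 : ∀ n, ¬ TM x n) (n : ℕ) :
    ¬ (E x n ≤ 0 ∧ E x (n + 1) ≤ 0 ∧ E x (n + 2) ≤ 0) := by
  rintro ⟨a, b, c⟩
  rcases Nat.even_or_odd n with hn | hn
  · rw [E_even hn] at a
    rw [E_odd (n := n + 1) (by rcases hn with ⟨m, hm⟩; grind)] at b
    rw [E_even (n := n + 2) (by rcases hn with ⟨m, hm⟩; grind)] at c
    exact h2 n ⟨(W_nonpos hpos n).mp a, (W_nonneg hpos (n + 1)).mp (by linarith),
      (W_nonpos hpos (n + 2)).mp c⟩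
  · rw [E_odd hn] at a
    rw [E_even (n := n + 1) (by rcases hn with ⟨m, hm⟩; grind)] at b
    rw [E_odd (n := n + 2) (by rcases hn with ⟨m, hm⟩; grind)] at c
    exact h1 n ⟨(W_nonneg hpos n).mp (by linarith), (W_nonpos hpos (n + 1)).mp b,
      (W_nonneg hpos (n + 2)).mp (by linarith)⟩

lemma conv_of_log {f : ℕ → ℝ} (hf : ∀ n, 0 < f n) {K r : ℝ} (hr1 : r < 1)
    (hd : ∀ n, |Real.log (f (n + 1)) - Real.log (f n)| ≤ K * r ^ n) :
    ∃ p, 0 < p ∧ Tendsto f atTop (𝓝 p) := by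
  have hc : CauchySeq (fun n => Real.log (f n)) := by
    apply cauchySeq_of_le_geometric r K hr1
    intro n
    rw [Real.dist_eq, abs_sub_comm]
    exact hd n
  obtain ⟨l, hl⟩ := cauchySeq_tendsto_of_complete hc
  refine ⟨Real.exp l, Real.exp_pos l, ?_⟩
  have := (Real.continuous_exp.tendsto l).comp hl
  refine this.congr (fun n => ?_)
  simp [Real.exp_log (hf n)]

lemma Sol.conv_nonmono (h : Sol A B D x) (hA : 0 ≤ A) (hB : 0 ≤ B) (hD : 0 < D)
    (hpos : ∀ n, 0 < x n) {c : ℝ} (hc0 : 0 < c) (hc : ∀ n, c ≤ x n)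
    (h1 : ∀ n, ¬ TP x n) (h2 : ∀ n, ¬ TM x n) : Conv x := by
  have hθ0 : 0 ≤ 1 - c := by
    obtain ⟨p, b, q, hb, hq, hbq, hp, _⟩ := h.W_upper hA hB hD hpos hc 0
    linarith
  obtain ⟨K, r, K0, r0, r1, hdec⟩ := geom_decay hθ0 (by linarith) (h.E_UB hA hB hD hpos hc)
    (h.E_LB hA hB hD hpos hc) (E_not_nonneg hpos h1 h2) (E_not_nonpos hpos h1 h2)
  have hW : ∀ n, |W x n| ≤ K * r ^ n := by
    intro n
    have := hdec n
    unfold E at this
    rwa [abs_mul, abs_pow, abs_neg, abs_one, one_pow, one_mul] at this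
  have r2 : r ^ 2 < 1 := by nlinarith
  obtain ⟨p, _, hp⟩ := conv_of_log (f := fun k => x (2 * k)) (K := K) (r := r ^ 2) (fun k => hpos _) r2
    (fun k => by
      have := hW (2 * k)
      rw [← pow_mul]
      exact this)
  obtain ⟨q, _, hq⟩ := conv_of_log (f := fun k => x (2 * k + 1)) (K := K) (r := r ^ 2) (fun k => hpos _) r2
    (fun k => by
      have := hW (2 * k + 1)
      rw [← pow_mul]
      refine this.trans (mul_le_mul_of_nonneg_left (pow_le_pow_of_le_one r0.le r1.le (by omega)) K0))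
  exact ⟨0, p, q, by simpa using hp, by simpa using hq⟩

end positive

section boundary
variable {A B D : ℝ} {x : ℕ → ℝ}

lemma Sol.one_step_le (h : Sol A B D x) {m : ℕ} {τ : ℝ} (hτ : 0 < τ)
    (hd : τ ≤ A + B * x (m + 2) + x (m + 1) + D * x m) : x (m + 3) ≤ x (m + 1) / τ := by
  rw [h.step m]
  exact div_le_div_of_nonneg_left (h.nonneg _) hτ hd

lemma Sol.one_step_ge (h : Sol A B D x) {m : ℕ} {ρ : ℝ}
    (hd : A + B * x (m + 2) + x (m + 1) + D * x m ≤ ρ) : x (m + 1) / ρ ≤ x (m + 3) := by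
  rw [h.step m]
  exact div_le_div_of_nonneg_left (h.nonneg _) (h.den_pos m) hd

/-- if the other class is small then the class stays above `ζ` once above -/
lemma Sol.stay_above (h : Sol A B D x) {m : ℕ} {σ ζ : ℝ} (hσ : 0 ≤ σ) (hζ : 0 < ζ)
    (hσζ : σ + ζ ≤ 1) (hd : A + B * x (m + 2) + D * x m ≤ σ) (hz : ζ ≤ x (m + 1)) :
    ζ ≤ x (m + 3) := by
  rw [h.step m, le_div_iff₀ (h.den_pos m)]
  have hz0 := h.nonneg (m + 1)
  have h1 : ζ * (A + B * x (m + 2) + x (m + 1) + D * x m) ≤ ζ * (σ + x (m + 1)) :=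
    mul_le_mul_of_nonneg_left (by linarith) hζ.le
  have h2 : ζ * σ ≤ x (m + 1) * (1 - ζ) := by
    have : ζ * σ ≤ ζ * (1 - ζ) := mul_le_mul_of_nonneg_left (by linarith) hζ.le
    have : ζ * (1 - ζ) ≤ x (m + 1) * (1 - ζ) := mul_le_mul_of_nonneg_right hz (by linarith)
    linarith
  nlinarith

lemma Sol.grow (h : Sol A B D x) (hA : 0 ≤ A) (hB : 0 ≤ B) (hD : 0 < D)
    {n M : ℕ} {ε ζ κ : ℝ} (hε : 0 ≤ ε) (hζ : 0 < ζ) (hρ : A + (B + D) * ε + ζ < 1)
    (hκ : 0 < κ) (hz : κ ≤ x (n + 1)) (ha : ∀ i ≤ M, x (n + 2 * i) ≤ ε) :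
    ∀ i ≤ M, min ζ (κ / (A + (B + D) * ε + ζ) ^ i) ≤ x (n + 2 * i + 1) := by
  set ρ := A + (B + D) * ε + ζ with hρd
  have hρ0 : 0 < ρ := by
    have : 0 ≤ (B + D) * ε := mul_nonneg (by linarith) hε
    linarith
  intro i
  induction i with
  | zero => intro _; simpa using Or.inr hz
  | succ i ih =>
    intro hi
    have ih := ih (by omega)
    have a0 := ha i (by omega)
    have a1 : x (n + 2 * i + 2) ≤ ε := ha (i + 1) hi
    have hdd : A + B * x (n + 2 * i + 2) + D * x (n + 2 * i) ≤ A + (B + D) * ε := by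
      have := mul_le_mul_of_nonneg_left a1 hB
      have := mul_le_mul_of_nonneg_left a0 hD.le
      linarith
    show min ζ (κ / ρ ^ (i + 1)) ≤ x (n + 2 * i + 3)
    rcases le_or_gt ζ (x (n + 2 * i + 1)) with hc | hc
    · refine (min_le_left _ _).trans ?_
      exact h.stay_above (m := n + 2 * i) (σ := A + (B + D) * ε)
        (by have : 0 ≤ (B + D) * ε := mul_nonneg (by linarith) hε
            linarith) hζ (by linarith) hdd hc
    · have h1 : κ / ρ ^ i ≤ x (n + 2 * i + 1) := by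
        rcases min_le_iff.mp ih with h' | h'
        · linarith
        · exact h'
      have h2 := h.one_step_ge (m := n + 2 * i) (ρ := ρ) (by linarith)
      refine (min_le_right _ _).trans (le_trans ?_ h2)
      rw [pow_succ, ← div_div]
      exact div_le_div_of_nonneg_right h1 hρ0.le

/-- eventually `x ≤ u` for each `u > 1 - A`. -/
lemma Sol.ev_le (h : Sol A B D x) (hA : 0 ≤ A) (hB : 0 ≤ B) (hD : 0 < D)
    (hle : ∀ n, x n ≤ 1) {u : ℝ} (hu0 : 0 < u) (hu : 1 - A < u) : ∃ N, ∀ n ≥ N, x n ≤ u := by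
  have hτ : 1 < A + u := by linarith
  have hτ0 : 0 < A + u := by linarith
  have key : ∀ k n, x (n + 1 + 2 * k) ≤ max u (1 / (A + u) ^ k) := by
    intro k
    induction k with
    | zero => intro n; simpa using Or.inr (hle (n + 1))
    | succ k ih =>
      intro n
      have ih := ih n
      have e : n + 1 + 2 * (k + 1) = n + 2 * k + 3 := by ring
      have e' : n + 1 + 2 * k = n + 2 * k + 1 := by ring
      rw [e]; rw [e'] at ih
      have p1 := mul_nonneg hB (h.nonneg (n + 2 * k + 2))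
      have p2 := mul_nonneg hD.le (h.nonneg (n + 2 * k))
      rcases le_or_gt (x (n + 2 * k + 1)) u with hc | hc
      · refine le_trans ?_ (le_max_left _ _)
        rw [h.step, div_le_iff₀ (h.den_pos _)]
        have : u * (A + x (n + 2 * k + 1)) ≤ u * (A + B * x (n + 2 * k + 2) + x (n + 2 * k + 1) + D * x (n + 2 * k)) :=
          mul_le_mul_of_nonneg_left (by linarith) hu0.le
        nlinarith [mul_le_mul_of_nonneg_right hτ.le hu0.le, h.nonneg (n + 2 * k + 1)]
      · have h1 := h.one_step_le (m := n + 2 * k) hτ0 (by linarith)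
        have h2 : x (n + 2 * k + 1) ≤ 1 / (A + u) ^ k := by
          rcases le_max_iff.mp ih with h' | h'
          · linarith
          · exact h'
        refine le_trans (h1.trans ?_) (le_max_right _ _)
        rw [pow_succ, ← div_div]
        exact div_le_div_of_nonneg_right h2 hτ0.le
  have hinv : 1 / (A + u) < 1 := by rw [div_lt_one hτ0]; exact hτ
  obtain ⟨k, hk⟩ := exists_pow_lt_of_lt_one hu0 hinv
  refine ⟨1 + 2 * k, fun n hn => ?_⟩
  obtain ⟨m, rfl⟩ := Nat.exists_eq_add_of_le hn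
  have := key k m
  have e : 1 + 2 * k + m = m + 1 + 2 * k := by ring
  rw [e]
  refine this.trans (max_le le_rfl ?_)
  rw [one_div, ← inv_pow, ← one_div]; exact hk.le

/-- the case `B + D < 1`: bounded below -/
lemma Sol.low_lt (h : Sol A B D x) (hA : 0 ≤ A) (hB : 0 ≤ B) (hD : 0 < D) (hA1 : A < 1)
    (hpos : ∀ n, 0 < x n) (hle : ∀ n, x n ≤ 1) (hBD : B + D < 1) :
    ∃ c > 0, ∃ N, ∀ n ≥ N, c ≤ x n := by
  -- choose u
  obtain ⟨u, hu1, hu2⟩ : ∃ u, 1 - A < u ∧ A + (B + D) * u < 1 := by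
    have hBD0 : 0 < B + D := by linarith
    have : 1 - A < (1 - A) / (B + D) := by
      rw [lt_div_iff₀ hBD0]; nlinarith
    obtain ⟨u, h1, h2⟩ := exists_between this
    refine ⟨u, h1, ?_⟩
    rw [lt_div_iff₀ hBD0] at h2
    linarith
  obtain ⟨N, hN⟩ := h.ev_le hA hB hD hle (by linarith) hu1
  set c := A + (B + D) * u with hc
  have hc0 : 0 < c := by
    have : 0 < (B + D) * u := mul_pos (by linarith) (by linarith)
    linarith
  set μ := min (min (x (N + 1)) (x (N + 2))) (1 - c) with hμ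
  have hμ0 : 0 < μ := lt_min (lt_min (hpos _) (hpos _)) (by linarith)
  have step : ∀ n ≥ N, min (x (n + 1)) (1 - c) ≤ x (n + 3) := by
    intro n hn
    have u1 := hN n hn
    have u2 := hN (n + 2) (by omega)
    have hdd : A + B * x (n + 2) + D * x n ≤ c := by
      have := mul_le_mul_of_nonneg_left u2 hB
      have := mul_le_mul_of_nonneg_left u1 hD.le
      rw [hc]; linarith
    rcases le_or_gt (1 - c) (x (n + 1)) with hx | hx
    · exact (min_le_right _ _).trans (h.stay_above (σ := c) hc0.le (by linarith) (by linarith) hdd hx)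
    · refine (min_le_left _ _).trans ?_
      have := h.one_step_ge (m := n) (ρ := 1) (by linarith)
      simpa using this
  have key : ∀ k, μ ≤ x (N + 1 + k) ∧ μ ≤ x (N + 2 + k) := by
    intro k
    induction k with
    | zero => exact ⟨(min_le_left _ _).trans (min_le_left _ _), (min_le_left _ _).trans (min_le_right _ _)⟩
    | succ k ih =>
      have e1 : N + 1 + (k + 1) = N + 2 + k := by ring
      have e2 : N + 2 + (k + 1) = N + k + 3 := by ring
      rw [e1, e2]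
      refine ⟨ih.2, le_trans (le_min ?_ (min_le_right _ _)) (step (N + k) (by omega))⟩
      have e3 : N + k + 1 = N + 1 + k := by ring
      rw [e3]; exact ih.1
  refine ⟨μ, hμ0, N + 1, fun n hn => ?_⟩
  obtain ⟨m, rfl⟩ := Nat.exists_eq_add_of_le hn
  exact (key m).1

/-- persistence of the larger class -/
lemma Sol.max_low (h : Sol A B D x) (hA : 0 ≤ A) (hB : 0 ≤ B) (hD : 0 < D) (hA1 : A < 1)
    (hpos : ∀ n, 0 < x n) (hle : ∀ n, x n ≤ 1) :
    ∃ κ > 0, ∃ N, ∀ n ≥ N, κ ≤ x n ∨ κ ≤ x (n + 1) := by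
  set R := 1 + A + B + D with hR
  have hR1 : 1 < R := by linarith
  set κ := (1 - A) / ((1 + B + D) * R) with hκ
  have hBD1 : 0 < 1 + B + D := by linarith
  have hκ0 : 0 < κ := div_pos (by linarith) (mul_pos hBD1 (by linarith))
  have hκR : (1 + B + D) * (R * κ) = 1 - A := by rw [hκ]; field_simp
  have hden : ∀ n, A + B * x (n + 2) + x (n + 1) + D * x n ≤ R := by
    intro n
    have := mul_le_mul_of_nonneg_left (hle (n + 2)) hB
    have := mul_le_mul_of_nonneg_left (hle n) hD.le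
    have := hle (n + 1)
    rw [hR]; linarith
  have step : ∀ n, (κ ≤ x (n + 2) ∨ κ ≤ x (n + 3)) → (κ ≤ x (n + 3) ∨ κ ≤ x (n + 4)) := by
    intro n hn
    rcases le_or_gt κ (x (n + 3)) with h3 | h3
    · exact Or.inl h3
    right
    have h2 : κ ≤ x (n + 2) := by
      rcases hn with h' | h'
      · exact h'
      · linarith
    rcases le_or_gt (R * κ) (x (n + 2)) with hc | hc
    · have := h.one_step_ge (m := n + 1) (hden (n + 1))
      refine le_trans ?_ this
      rw [le_div_iff₀ (by linarith)]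
      show κ * R ≤ x (n + 2)
      linarith
    · have e1 := h.mul n
      have h1 : x (n + 1) ≤ R * κ := by
        rw [← e1]
        have := mul_le_mul h3.le (hden n) (h.den_pos n).le hκ0.le
        linarith
      have hd1 : A + B * x (n + 3) + x (n + 2) + D * x (n + 1) ≤ 1 := by
        have a1 : B * x (n + 3) ≤ B * (R * κ) := mul_le_mul_of_nonneg_left (by nlinarith) hB
        have a2 : D * x (n + 1) ≤ D * (R * κ) := mul_le_mul_of_nonneg_left h1 hD.le
        nlinarith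
      have := h.one_step_ge (m := n + 1) (ρ := 1) hd1
      rw [div_one] at this
      exact h2.trans this
  have start : ∃ n, κ ≤ x (n + 2) ∨ κ ≤ x (n + 3) := by
    by_contra hno
    push Not at hno
    set ρ := A + (1 + B + D) * κ with hρ
    have hρ0 : 0 < ρ := by
      have := mul_pos hBD1 hκ0
      linarith
    have hρ1 : ρ < 1 := by
      have : (1 + B + D) * κ < (1 + B + D) * (R * κ) := by
        apply mul_lt_mul_of_pos_left _ hBD1
        nlinarith
      linarith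
    have grow : ∀ k, x 3 / ρ ^ k ≤ x (2 * k + 3) := by
      intro k
      induction k with
      | zero => simp
      | succ k ih =>
        have hd : A + B * x (2 * k + 2 + 2) + x (2 * k + 2 + 1) + D * x (2 * k + 2) ≤ ρ := by
          have a1 := mul_le_mul_of_nonneg_left (hno (2 * k + 2)).1.le hB
          have a2 := mul_le_mul_of_nonneg_left (hno (2 * k)).1.le hD.le
          have a3 := (hno (2 * k + 1)).1
          have a3' : x (2 * k + 2 + 1) < κ := a3
          rw [hρ]; linarith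
        have := h.one_step_ge hd
        have e : 2 * (k + 1) + 3 = 2 * k + 2 + 3 := by ring
        rw [e]
        refine le_trans ?_ this
        rw [pow_succ, ← div_div]
        exact div_le_div_of_nonneg_right ih hρ0.le
    obtain ⟨k, hk⟩ := exists_pow_lt_of_lt_one (hpos 3) hρ1
    have h1 := (grow k).trans (hle _)
    rw [div_le_one (pow_pos hρ0 k)] at h1
    linarith
  obtain ⟨n0, hn0⟩ := start
  refine ⟨κ, hκ0, n0 + 2, fun n hn => ?_⟩
  obtain ⟨m, rfl⟩ := Nat.exists_eq_add_of_le hn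
  clear hn
  have key : ∀ m, κ ≤ x (n0 + m + 2) ∨ κ ≤ x (n0 + m + 3) := by
    intro m
    induction m with
    | zero => exact hn0
    | succ m ih => exact step (n0 + m) ih
  have e1 : n0 + 2 + m = n0 + m + 2 := by ring
  rw [e1]; exact key m

/-- if the solution is not bounded away from zero it comes close to the boundary cycle -/
lemma Sol.approach (h : Sol A B D x) (hA : 0 ≤ A) (hB : 0 ≤ B) (hD : 0 < D) (hA1 : A < 1)
    (hpos : ∀ n, 0 < x n) (hle : ∀ n, x n ≤ 1)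
    (hno : ∀ c > 0, ∀ N, ∃ n ≥ N, x n < c) {ε ζ : ℝ} (hε : 0 < ε) (hζ : 0 < ζ)
    (hρ : A + (B + D) * ε + ζ < 1) (N : ℕ) :
    ∃ m ≥ N, x m ≤ ε ∧ x (m + 2) ≤ ε ∧ x (m + 4) ≤ ε ∧ ζ ≤ x (m + 1) ∧ ζ ≤ x (m + 3) := by
  obtain ⟨κ, hκ0, N1, hN1⟩ := h.max_low hA hB hD hA1 hpos hle
  set ρ := A + (B + D) * ε + ζ with hρd
  have hρ0 : 0 < ρ := by
    have : 0 ≤ (B + D) * ε := mul_nonneg (by linarith) hε.le
    linarith
  obtain ⟨J, hJ⟩ := exists_pow_lt_of_lt_one hκ0 hρ
  set G := max 1 (1 / (D * κ)) with hG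
  have hG1 : 1 ≤ G := le_max_left _ _
  have hG0 : 0 < G := by linarith
  have hDκ : 0 < D * κ := mul_pos hD hκ0
  set δ := min ε κ / G ^ (J + 2) with hδ
  have hmin : 0 < min ε κ := lt_min hε hκ0
  have hδ0 : 0 < δ := div_pos hmin (pow_pos hG0 _)
  have hGδ : ∀ i ≤ J + 2, G ^ i * δ ≤ min ε κ := by
    intro i hi
    have : G ^ i * δ ≤ G ^ (J + 2) * δ :=
      mul_le_mul_of_nonneg_right (pow_le_pow_right₀ hG1 hi) hδ0.le
    refine this.trans (le_of_eq ?_)
    rw [hδ]; field_simp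
  obtain ⟨n, hn, hxn⟩ := hno δ hδ0 (N1 + N + 1)
  obtain ⟨n', rfl⟩ : ∃ n', n = n' + 1 := ⟨n - 1, by omega⟩
  have ha : ∀ i ≤ J + 2, x (n' + 1 + 2 * i) < G ^ i * δ := by
    intro i
    induction i with
    | zero => intro _; simpa using hxn
    | succ i ih =>
      intro hi
      have ih := ih (by omega)
      have hsm : x (n' + 1 + 2 * i) < κ := lt_of_lt_of_le ih ((hGδ i (by omega)).trans (min_le_right _ _))
      have e1 : n' + 1 + 2 * i = n' + 2 * i + 1 := by ring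
      rw [e1] at hsm ih
      have hbig : κ ≤ x (n' + 2 * i) := by
        rcases hN1 (n' + 2 * i) (by omega) with h' | h'
        · exact h'
        · linarith
      have hd : D * κ ≤ A + B * x (n' + 2 * i + 2) + x (n' + 2 * i + 1) + D * x (n' + 2 * i) := by
        have a1 := mul_nonneg hB (h.nonneg (n' + 2 * i + 2))
        have a2 := h.nonneg (n' + 2 * i + 1)
        have a3 := mul_le_mul_of_nonneg_left hbig hD.le
        linarith
      have h1 := h.one_step_le hDκ hd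
      have e2 : n' + 1 + 2 * (i + 1) = n' + 2 * i + 3 := by ring
      rw [e2]
      refine lt_of_le_of_lt h1 ?_
      have h2 : x (n' + 2 * i + 1) / (D * κ) = 1 / (D * κ) * x (n' + 2 * i + 1) := by ring
      rw [h2, pow_succ]
      calc 1 / (D * κ) * x (n' + 2 * i + 1) ≤ G * x (n' + 2 * i + 1) :=
            mul_le_mul_of_nonneg_right (le_max_right _ _) (h.nonneg _)
        _ < G * (G ^ i * δ) := mul_lt_mul_of_pos_left ih hG0
        _ = G ^ i * G * δ := by ring
  have ha' : ∀ i ≤ J + 2, x (n' + 1 + 2 * i) ≤ ε := fun i hi =>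
    (ha i hi).le.trans ((hGδ i hi).trans (min_le_left _ _))
  have hz0 : κ ≤ x (n' + 1 + 1) := by
    rcases hN1 (n' + 1) (by omega) with h' | h'
    · have := (ha 0 (by omega)).le.trans ((hGδ 0 (by omega)).trans (min_le_right _ _))
      have h2 : x (n' + 1) < κ := lt_of_lt_of_le (ha 0 (by omega)) ((hGδ 0 (by omega)).trans (min_le_right _ _))
      linarith
    · exact h'
  have hg := h.grow hA hB hD (n := n' + 1) (M := J + 2) hε.le hζ hρ hκ0 hz0 ha'
  have hbig : ∀ i, J ≤ i → ζ ≤ κ / ρ ^ i := by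
    intro i hi
    have h1 : ρ ^ i ≤ ρ ^ J := pow_le_pow_of_le_one hρ0.le hρ.le hi
    have h2 : ρ ^ i < κ := lt_of_le_of_lt h1 hJ
    have h3 : 1 < κ / ρ ^ i := by rw [lt_div_iff₀ (pow_pos hρ0 i)]; linarith
    have : 0 ≤ (B + D) * ε := mul_nonneg (by linarith) hε.le
    linarith
  refine ⟨n' + 1 + 2 * J, by omega, ha' J (by omega), ha' (J + 1) (by omega), ha' (J + 2) le_rfl, ?_, ?_⟩
  · have := hg J (by omega)
    rwa [min_eq_left (hbig J le_rfl)] at this
  · have := hg (J + 1) (by omega)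
    rwa [min_eq_left (hbig (J + 1) (by omega))] at this

end boundary

section neutral
variable {A B D : ℝ} {x : ℕ → ℝ}

/-- `r n = 1 - denominator` -/
def rr (A B D : ℝ) (x : ℕ → ℝ) (n : ℕ) : ℝ := 1 - (A + B * x (n + 2) + x (n + 1) + D * x n)

lemma Sol.rr_id (h : Sol A B D x) (n : ℕ) : x (n + 3) - x (n + 1) = x (n + 3) * rr A B D x n := by
  have := h.mul n
  unfold rr
  linear_combination this

lemma Sol.rr_rec (h : Sol A B D x) (hBD : B + D = 1) (n : ℕ) :
    rr A B D x (n + 2) = (1 - B * x (n + 4)) * rr A B D x (n + 1) - D * x (n + 3) * rr A B D x n := by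
  have e1 := h.rr_id n
  have e2 : x (n + 4) - x (n + 2) = x (n + 4) * rr A B D x (n + 1) := h.rr_id (n + 1)
  have d1 : rr A B D x (n + 2) = 1 - (A + B * x (n + 4) + x (n + 3) + D * x (n + 2)) := rfl
  have d2 : rr A B D x (n + 1) = 1 - (A + B * x (n + 3) + x (n + 2) + D * x (n + 1)) := rfl
  have : rr A B D x (n + 2) - rr A B D x (n + 1)
      = -(B * (x (n + 4) - x (n + 2)) + D * (x (n + 3) - x (n + 1))) := by
    rw [d1, d2]
    have hB : B = 1 - D := by linarith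
    subst hB; ring
  rw [e1, e2] at this
  linear_combination this

lemma log_one_sub {r : ℝ} (hr : |r| ≤ 1 / 2) : |Real.log (1 - r)| ≤ 2 * |r| := by
  obtain ⟨h1, h2⟩ := abs_le.mp hr
  have hp : 0 < 1 - r := by linarith
  rw [abs_le]
  constructor
  · have := Real.one_sub_inv_le_log_of_pos hp
    refine le_trans ?_ this
    have h3 : (1 - r)⁻¹ ≤ 1 + 2 * |r| := by
      rw [inv_le_comm₀ hp (by positivity), inv_le_comm₀ (by positivity) hp]
      rw [inv_le_iff_one_le_mul₀ hp]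
      nlinarith [le_abs_self r, neg_abs_le r, abs_nonneg r]
    linarith
  · have := Real.log_le_sub_one_of_pos hp
    have := neg_abs_le r
    have := abs_nonneg r
    linarith

lemma alg_small {ζ t R S : ℝ} (hζ0 : 0 < ζ) (hζ1 : ζ ≤ 1 / 2) (t0 : 0 < t) (t1 : t ≤ 1)
    (R0 : 0 ≤ R) (S0 : 0 ≤ S) (i1 : R + ζ / 4 * S ≤ t * (ζ ^ 2 / 32)) :
    R + ζ / 32 * S ≤ 1 / 2 ∧ R ≤ t * (ζ ^ 2 / 32) := by
  have h1 : 0 ≤ ζ * S := mul_nonneg hζ0.le S0
  have h2 : t * ζ ^ 2 ≤ 1 * (1 / 4) := by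
    apply mul_le_mul t1 _ (sq_nonneg ζ) zero_le_one
    nlinarith
  constructor <;> linarith

lemma alg_n {ζ t R S S' R' : ℝ} (hζ0 : 0 < ζ) (hζ1 : ζ ≤ 1 / 2) (t0 : 0 < t)
    (R0 : 0 ≤ R) (S0 : 0 ≤ S) (i1 : R + ζ / 4 * S ≤ t * (ζ ^ 2 / 32))
    (hS' : S' ≤ R + ζ / 32 * S) (hR' : R' ≤ (1 - ζ) * R + ζ / 32 * S + ζ / 16 * S') :
    R' + ζ / 4 * S' ≤ t * (1 - ζ / 2) * (ζ ^ 2 / 32) := by
  have h1 : 0 ≤ ζ * S := mul_nonneg hζ0.le S0
  have h2 : 0 ≤ ζ * R := mul_nonneg hζ0.le R0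
  have h3 : ζ * S' ≤ ζ * (R + ζ / 32 * S) := mul_le_mul_of_nonneg_left hS' hζ0.le
  have h4 : (1 - ζ / 2) * (R + ζ / 4 * S) ≤ (1 - ζ / 2) * (t * (ζ ^ 2 / 32)) :=
    mul_le_mul_of_nonneg_left i1 (by linarith)
  have h5 : ζ * (ζ * S) ≤ 1 / 2 * (ζ * S) := mul_le_mul_of_nonneg_right hζ1 h1
  have e4 : (1 - ζ / 2) * (R + ζ / 4 * S) = R - ζ * R / 2 + ζ * S / 4 - ζ * (ζ * S) / 8 := by ring
  have e3 : ζ * (R + ζ / 32 * S) = ζ * R + ζ * (ζ * S) / 32 := by ring
  have e5 : (1 - ζ / 2) * (t * (ζ ^ 2 / 32)) = t * (1 - ζ / 2) * (ζ ^ 2 / 32) := by ring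
  have e6 : (1 - ζ) * R = R - ζ * R := by ring
  rw [← e5]
  rw [e4] at h4
  rw [e3] at h3
  rw [e6] at hR'
  linarith

lemma alg_a {ζ t S' R' a4 a6 : ℝ} (hζ0 : 0 < ζ) (hζ1 : ζ ≤ 1 / 2) (t0 : 0 < t)
    (S'0 : 0 ≤ S') (R'0 : 0 ≤ R') (a4p : 0 ≤ a4) (i2 : a4 ≤ ζ / 32 * (1 - t / 2))
    (ha6 : a6 ≤ a4 * (1 + 2 * S')) (hn : R' + ζ / 4 * S' ≤ t * (1 - ζ / 2) * (ζ ^ 2 / 32)) :
    a6 ≤ ζ / 32 * (1 - t * (1 - ζ / 2) / 2) := by
  have h1 : S' ≤ t * (1 - ζ / 2) * (ζ / 8) := by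
    have h4 : ζ / 4 * S' ≤ ζ / 4 * (t * (1 - ζ / 2) * (ζ / 8)) := by
      calc ζ / 4 * S' ≤ t * (1 - ζ / 2) * (ζ ^ 2 / 32) := by linarith
        _ = ζ / 4 * (t * (1 - ζ / 2) * (ζ / 8)) := by ring
    exact le_of_mul_le_mul_left h4 (by positivity)
  have ht : 0 < ζ * t := mul_pos hζ0 t0
  have e : ζ / 32 * (1 - t / 2) = ζ / 32 - ζ * t / 64 := by ring
  have h2 : a4 ≤ ζ / 32 := by linarith
  have h3 : a4 * S' ≤ ζ / 32 * (t * (1 - ζ / 2) * (ζ / 8)) := mul_le_mul h2 h1 S'0 (by positivity)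
  have h6 : a6 ≤ ζ / 32 * (1 - t / 2) + 2 * (ζ / 32 * (t * (1 - ζ / 2) * (ζ / 8))) := by
    have : a4 * (1 + 2 * S') = a4 + 2 * (a4 * S') := by ring
    linarith
  refine h6.trans ?_
  have h7 : 0 ≤ ζ * t * ζ := (mul_pos ht hζ0).le
  have h8 : 0 ≤ ζ * t * ζ * ζ := mul_nonneg h7 hζ0.le
  have e2 : ζ / 32 * (1 - t * (1 - ζ / 2) / 2) - (ζ / 32 * (1 - t / 2) + 2 * (ζ / 32 * (t * (1 - ζ / 2) * (ζ / 8))))
    = ζ * t * ζ * ζ / 256 := by ring
  linarith

lemma Sol.neutral_step (h : Sol A B D x) (hB : 0 ≤ B) (hD : 0 < D)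
    (hle : ∀ n, x n ≤ 1) (hBD : B + D = 1) {ζ t : ℝ} {n : ℕ}
    (hζ0 : 0 < ζ) (hζ1 : ζ ≤ 1 / 2) (t0 : 0 < t) (t1 : t ≤ 1)
    (i1 : |rr A B D x (n + 2)| + ζ / 4 * |rr A B D x (n + 1)| ≤ t * (ζ ^ 2 / 32))
    (i2 : x (n + 4) ≤ ζ / 32 * (1 - t / 2)) (i3 : ζ + ζ / 16 * t ≤ x (n + 3)) :
    |rr A B D x (n + 4)| + ζ / 4 * |rr A B D x (n + 3)| ≤ t * (1 - ζ / 2) * (ζ ^ 2 / 32)
      ∧ x (n + 6) ≤ ζ / 32 * (1 - t * (1 - ζ / 2) / 2)
      ∧ ζ + ζ / 16 * (t * (1 - ζ / 2)) ≤ x (n + 5) := by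
  have hB1 : B ≤ 1 := by linarith
  have hD1 : D ≤ 1 := by linarith
  have zid : x (n + 5) - x (n + 3) = x (n + 5) * rr A B D x (n + 2) := h.rr_id (n + 2)
  have aid : x (n + 6) - x (n + 4) = x (n + 6) * rr A B D x (n + 3) := h.rr_id (n + 3)
  have rec1 : rr A B D x (n + 3) = (1 - B * x (n + 5)) * rr A B D x (n + 2)
      - D * x (n + 4) * rr A B D x (n + 1) := h.rr_rec hBD (n + 1)
  have rec2 : rr A B D x (n + 4) = (1 - B * x (n + 6)) * rr A B D x (n + 3)
      - D * x (n + 5) * rr A B D x (n + 2) := h.rr_rec hBD (n + 2)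
  have z5le := hle (n + 5)
  have z5p := h.nonneg (n + 5)
  have a4p := h.nonneg (n + 4)
  have a6p := h.nonneg (n + 6)
  generalize hr1 : rr A B D x (n + 1) = r1 at *
  generalize hr2 : rr A B D x (n + 2) = r2 at *
  generalize hr3 : rr A B D x (n + 3) = r3 at *
  generalize hr4 : rr A B D x (n + 4) = r4 at *
  generalize hx3 : x (n + 3) = x3 at *
  generalize hx4 : x (n + 4) = x4 at *
  generalize hx5 : x (n + 5) = x5 at *
  generalize hx6 : x (n + 6) = x6 at *
  clear h hle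
  obtain ⟨hsm, hRs⟩ := alg_small hζ0 hζ1 t0 t1 (abs_nonneg r2) (abs_nonneg r1) i1
  have ht : 0 < ζ * t := mul_pos hζ0 t0
  -- z
  have zstep : x3 - |r2| ≤ x5 := by
    have h1 : x5 * (-|r2|) ≤ x5 * r2 := mul_le_mul_of_nonneg_left (neg_abs_le _) z5p
    have h2 : x5 * |r2| ≤ 1 * |r2| := mul_le_mul_of_nonneg_right z5le (abs_nonneg _)
    linarith
  have zgoal : ζ + ζ / 16 * (t * (1 - ζ / 2)) ≤ x5 := by
    have e : ζ / 16 * (t * (1 - ζ / 2)) = ζ / 16 * t - t * (ζ ^ 2 / 32) := by ring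
    linarith
  have zζ : ζ ≤ x5 := by
    have : 0 ≤ ζ / 16 * (t * (1 - ζ / 2)) :=
      mul_nonneg (by positivity) (mul_nonneg t0.le (by linarith))
    linarith
  have a4le : x4 ≤ ζ / 32 := by
    have e : ζ / 32 * (1 - t / 2) = ζ / 32 - ζ * t / 64 := by ring
    linarith
  have Bz0 : 0 ≤ B * x5 := mul_nonneg hB z5p
  have Bz1 : B * x5 ≤ 1 := mul_le_one₀ hB1 z5p z5le
  have Da0 : 0 ≤ D * x4 := mul_nonneg hD.le a4p
  have Da1 : D * x4 ≤ x4 := mul_le_of_le_one_left a4p hD1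
  have hS'le : |r3| ≤ |r2| + ζ / 32 * |r1| := by
    rw [rec1]
    have t1 : |(1 - B * x5) * r2| ≤ |r2| := by
      rw [abs_mul, abs_of_nonneg (by linarith : 0 ≤ 1 - B * x5)]
      exact mul_le_of_le_one_left (abs_nonneg _) (by linarith)
    have t2 : |D * x4 * r1| ≤ ζ / 32 * |r1| := by
      rw [abs_mul, abs_of_nonneg Da0]
      exact mul_le_mul_of_nonneg_right (by linarith) (abs_nonneg _)
    exact (abs_sub _ _).trans (add_le_add t1 t2)
  have hS'half : |r3| ≤ 1 / 2 := hS'le.trans hsm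
  have a6 : x6 ≤ x4 * (1 + 2 * |r3|) := by
    have s0 := abs_nonneg r3
    have b0 : x6 * r3 ≤ x6 * |r3| := mul_le_mul_of_nonneg_left (le_abs_self _) a6p
    have b1 : x6 * (1 - |r3|) ≤ x4 := by linarith
    have b2 : 1 ≤ (1 - |r3|) * (1 + 2 * |r3|) := by nlinarith
    have b3 : x6 * (1 - |r3|) * (1 + 2 * |r3|) ≤ x4 * (1 + 2 * |r3|) :=
      mul_le_mul_of_nonneg_right b1 (by linarith)
    have b4 : x6 * 1 ≤ x6 * ((1 - |r3|) * (1 + 2 * |r3|)) := mul_le_mul_of_nonneg_left b2 a6p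
    linarith
  have a6' : x6 ≤ ζ / 16 := by
    have : x4 * (1 + 2 * |r3|) ≤ ζ / 32 * 2 := mul_le_mul a4le (by linarith) (by positivity) (by positivity)
    linarith
  have hR'le : |r4| ≤ (1 - ζ) * |r2| + ζ / 32 * |r1| + ζ / 16 * |r3| := by
    have e : r4 = (1 - x5) * r2 - D * x4 * r1 - B * x6 * r3 := by
      have e1 : r4 = r3 - D * x5 * r2 - B * x6 * r3 := by rw [rec2]; ring
      have e2 : r3 - D * x5 * r2 = (1 - x5) * r2 - D * x4 * r1 := by
        have hBD' : B + D - 1 = 0 := by linarith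
        linear_combination rec1 - (x5 * r2) * hBD'
      rw [e1, e2]
    rw [e]
    have t1 : |(1 - x5) * r2| ≤ (1 - ζ) * |r2| := by
      rw [abs_mul, abs_of_nonneg (by linarith : 0 ≤ 1 - x5)]
      exact mul_le_mul_of_nonneg_right (by linarith) (abs_nonneg _)
    have t2 : |D * x4 * r1| ≤ ζ / 32 * |r1| := by
      rw [abs_mul, abs_of_nonneg Da0]
      exact mul_le_mul_of_nonneg_right (by linarith) (abs_nonneg _)
    have t3 : |B * x6 * r3| ≤ ζ / 16 * |r3| := by
      rw [abs_mul, abs_of_nonneg (mul_nonneg hB a6p)]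
      refine mul_le_mul_of_nonneg_right ?_ (abs_nonneg _)
      exact (mul_le_of_le_one_left a6p hB1).trans a6'
    exact (abs_sub _ _).trans (add_le_add ((abs_sub _ _).trans (add_le_add t1 t2)) t3)
  have hn := alg_n hζ0 hζ1 t0 (abs_nonneg r2) (abs_nonneg r1) i1 hS'le hR'le
  exact ⟨hn, alg_a hζ0 hζ1 t0 (abs_nonneg _) (abs_nonneg _) a4p i2 a6 hn, zgoal⟩

lemma Sol.conv_neutral (h : Sol A B D x) (hA : 0 ≤ A) (hB : 0 ≤ B) (hD : 0 < D) (hA1 : A < 1)
    (hpos : ∀ n, 0 < x n) (hle : ∀ n, x n ≤ 1) (hBD : B + D = 1)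
    (hno : ∀ c > 0, ∀ N, ∃ n ≥ N, x n < c) : Conv x := by
  obtain ⟨ζ, hζ⟩ : ∃ ζ, ζ = (1 - A) / 2 := ⟨_, rfl⟩
  have hζ0 : 0 < ζ := by rw [hζ]; linarith
  have hζ1 : ζ ≤ 1 / 2 := by rw [hζ]; linarith
  have hζ2 : 1 - A = 2 * ζ := by rw [hζ]; ring
  obtain ⟨N, hN⟩ := h.ev_le hA hB hD hle (u := 2 * ζ + ζ ^ 2 / 128) (by positivity)
    (by rw [hζ2]; nlinarith [sq_nonneg ζ, pow_pos hζ0 2])
  obtain ⟨m, hmN, a0, a2, a4, z1, z3⟩ := h.approach hA hB hD hA1 hpos hle hno
    (ε := ζ ^ 2 / 256) (ζ := 2 * ζ - ζ ^ 2 / 128) (by positivity)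
    (by nlinarith) (by rw [hBD]; nlinarith [pow_pos hζ0 2]) N
  set θ : ℝ := 1 - ζ / 2 with hθ
  have hθ0 : 0 < θ := by rw [hθ]; linarith
  have hθ1 : θ < 1 := by rw [hθ]; linarith
  have hB1 : B ≤ 1 := by linarith
  have hD1 : D ≤ 1 := by linarith
  have u1 := hN (m + 1) (by omega)
  have u3 := hN (m + 3) (by omega)
  have q2 : 0 < ζ ^ 2 := pow_pos hζ0 2
  have p4 := h.nonneg (m + 4)
  have p2 := h.nonneg (m + 2)
  have r2 : |rr A B D x (m + 2)| ≤ ζ ^ 2 / 64 := by
    have d : rr A B D x (m + 2) = 1 - (A + B * x (m + 4) + x (m + 3) + D * x (m + 2)) := rfl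
    have c1 := mul_nonneg hB p4
    have c2 := mul_nonneg hD.le p2
    have c3 := mul_le_mul_of_nonneg_left a4 hB
    have c4 := mul_le_mul_of_nonneg_left a2 hD.le
    have c5 : B * (ζ ^ 2 / 256) + D * (ζ ^ 2 / 256) = ζ ^ 2 / 256 := by rw [← add_mul, hBD, one_mul]
    rw [d, abs_le]
    constructor <;> linarith
  have r1 : |rr A B D x (m + 1)| ≤ ζ ^ 2 / 64 := by
    have d : rr A B D x (m + 1) = 1 - (A + B * x (m + 3) + x (m + 2) + D * x (m + 1)) := rfl
    have c1 := mul_le_mul_of_nonneg_left z3 hB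
    have c2 := mul_le_mul_of_nonneg_left z1 hD.le
    have c3 := mul_le_mul_of_nonneg_left u3 hB
    have c4 := mul_le_mul_of_nonneg_left u1 hD.le
    have c5 : B * (2 * ζ - ζ ^ 2 / 128) + D * (2 * ζ - ζ ^ 2 / 128) = 2 * ζ - ζ ^ 2 / 128 := by
      rw [← add_mul, hBD, one_mul]
    have c6 : B * (2 * ζ + ζ ^ 2 / 128) + D * (2 * ζ + ζ ^ 2 / 128) = 2 * ζ + ζ ^ 2 / 128 := by
      rw [← add_mul, hBD, one_mul]
    rw [d, abs_le]
    constructor <;> linarith
  have key : ∀ k : ℕ, |rr A B D x (m + 2 * k + 2)| + ζ / 4 * |rr A B D x (m + 2 * k + 1)| ≤ θ ^ k * (ζ ^ 2 / 32)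
      ∧ x (m + 2 * k + 4) ≤ ζ / 32 * (1 - θ ^ k / 2) ∧ ζ + ζ / 16 * θ ^ k ≤ x (m + 2 * k + 3) := by
    intro k
    induction k with
    | zero =>
      simp only [Nat.mul_zero, Nat.add_zero, pow_zero, one_mul, mul_one]
      refine ⟨?_, ?_, ?_⟩
      · have := abs_nonneg (rr A B D x (m + 1))
        nlinarith
      · nlinarith
      · nlinarith
    | succ k ih =>
      obtain ⟨i1, i2, i3⟩ := ih
      have tk : 0 < θ ^ k := pow_pos hθ0 k
      have tk1 : θ ^ k ≤ 1 := pow_le_one₀ hθ0.le hθ1.le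
      have pk : θ ^ (k + 1) = θ ^ k * (1 - ζ / 2) := by rw [pow_succ]
      have e4 : m + 2 * (k + 1) + 2 = m + 2 * k + 4 := by ring
      have e3 : m + 2 * (k + 1) + 1 = m + 2 * k + 3 := by ring
      have e6 : m + 2 * (k + 1) + 4 = m + 2 * k + 6 := by ring
      have e5 : m + 2 * (k + 1) + 3 = m + 2 * k + 5 := by ring
      rw [e4, e3, e6, e5, pk]
      exact h.neutral_step hB hD hle hBD hζ0 hζ1 tk tk1 i1 i2 i3
  -- conclusion
  have hz : ∀ k : ℕ, |rr A B D x (m + 2 * k + 2)| ≤ θ ^ k * (ζ ^ 2 / 32) := by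
    intro k
    have := (key k).1
    have := mul_nonneg (by positivity : 0 ≤ ζ / 4) (abs_nonneg (rr A B D x (m + 2 * k + 1)))
    linarith
  have ha : ∀ k : ℕ, |rr A B D x (m + 2 * k + 1)| ≤ θ ^ k * (ζ / 8) := by
    intro k
    have h1 := (key k).1
    have h2 := abs_nonneg (rr A B D x (m + 2 * k + 2))
    have h5 : ζ / 4 * |rr A B D x (m + 2 * k + 1)| ≤ ζ / 4 * (θ ^ k * (ζ / 8)) := by
      calc ζ / 4 * |rr A B D x (m + 2 * k + 1)| ≤ θ ^ k * (ζ ^ 2 / 32) := by linarith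
        _ = ζ / 4 * (θ ^ k * (ζ / 8)) := by ring
    exact le_of_mul_le_mul_left h5 (by positivity)
  have hlog : ∀ n, |rr A B D x n| ≤ 1 / 2 →
      |Real.log (x (n + 3)) - Real.log (x (n + 1))| ≤ 2 * |rr A B D x n| := by
    intro n hn
    have hp : 0 < 1 - rr A B D x n := by
      have := (abs_le.mp hn).2; linarith
    have e : x (n + 1) = x (n + 3) * (1 - rr A B D x n) := by
      have := h.rr_id n; linarith
    rw [e, Real.log_mul (hpos _).ne' hp.ne']
    have : Real.log (x (n + 3)) - (Real.log (x (n + 3)) + Real.log (1 - rr A B D x n))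
      = - Real.log (1 - rr A B D x n) := by ring
    rw [this, abs_neg]
    exact log_one_sub hn
  obtain ⟨q, _, hq⟩ := conv_of_log (f := fun k => x (m + 2 * k + 3)) (K := 2 * (ζ ^ 2 / 32)) (r := θ)
    (fun k => hpos _) hθ1 (fun k => by
      have tk1 : θ ^ k ≤ 1 := pow_le_one₀ hθ0.le hθ1.le
      have tk0 : 0 < θ ^ k := pow_pos hθ0 k
      have h1 := hz k
      have h2 := hlog (m + 2 * k + 2) (by nlinarith)
      have e : m + 2 * (k + 1) + 3 = m + 2 * k + 2 + 3 := by ring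
      simp only [e]
      refine h2.trans ?_
      linarith)
  obtain ⟨p, _, hp⟩ := conv_of_log (f := fun k => x (m + 2 * k + 2)) (K := 2 * (ζ / 8)) (r := θ)
    (fun k => hpos _) hθ1 (fun k => by
      have tk1 : θ ^ k ≤ 1 := pow_le_one₀ hθ0.le hθ1.le
      have tk0 : 0 < θ ^ k := pow_pos hθ0 k
      have h1 := ha k
      have h2 := hlog (m + 2 * k + 1) (by nlinarith)
      have e : m + 2 * (k + 1) + 2 = m + 2 * k + 1 + 3 := by ring
      simp only [e]
      refine h2.trans ?_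
      linarith)
  refine ⟨m + 2, p, q, ?_, ?_⟩
  · refine hp.congr (fun k => ?_)
    congr 1; ring
  · refine hq.congr (fun k => ?_)
    congr 1; ring

end neutral

section finish
variable {A B D : ℝ} {x : ℕ → ℝ}

/-- `B + D > 1`: attraction to the boundary cycle -/
lemma Sol.conv_gt (h : Sol A B D x) (hA : 0 ≤ A) (hB : 0 ≤ B) (hD : 0 < D) (hA1 : A < 1)
    (hpos : ∀ n, 0 < x n) (hle : ∀ n, x n ≤ 1) (hBD : 1 < B + D)
    (hno : ∀ c > 0, ∀ N, ∃ n ≥ N, x n < c) : Conv x := by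
  have hBD0 : 0 < B + D := by linarith
  obtain ⟨ζ, hζ1, hζ2⟩ : ∃ ζ, (1 - A) / (B + D) < ζ ∧ ζ < 1 - A := by
    apply exists_between
    rw [div_lt_iff₀ hBD0]; nlinarith
  have hζ0 : 0 < ζ := lt_trans (div_pos (by linarith) hBD0) hζ1
  have hτ : 1 < A + (B + D) * ζ := by
    rw [div_lt_iff₀ hBD0] at hζ1; linarith
  set τ := A + (B + D) * ζ with hτd
  have hτ0 : 0 < τ := by linarith
  obtain ⟨ε, hε0, hε⟩ : ∃ ε, 0 < ε ∧ (B + D) * ε < 1 - A - ζ := by
    have : (0 : ℝ) < (1 - A - ζ) / (B + D) := div_pos (by linarith) hBD0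
    obtain ⟨ε, h1, h2⟩ := exists_between this
    refine ⟨ε, h1, ?_⟩
    rw [lt_div_iff₀ hBD0] at h2; linarith
  obtain ⟨m, -, a0, a2, -, z1, z3⟩ := h.approach hA hB hD hA1 hpos hle hno hε0 hζ0
    (by linarith : A + (B + D) * ε + ζ < 1) 0
  -- the trap
  have trap : ∀ k, x (m + 2 * k) ≤ ε * (1 / τ) ^ k * τ ∧ x (m + 2 * k + 2) ≤ ε * (1 / τ) ^ k ∧
      ζ ≤ x (m + 2 * k + 1) ∧ ζ ≤ x (m + 2 * k + 3) := by
    intro k
    induction k with
    | zero =>
      refine ⟨?_, by simpa using a2, z1, z3⟩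
      simp only [pow_zero, mul_one, Nat.mul_zero, Nat.add_zero]
      nlinarith
    | succ k ih =>
      obtain ⟨i1, i2, i3, i4⟩ := ih
      have hpk : (1 / τ) ^ k ≤ 1 := pow_le_one₀ (by positivity) (by rw [div_le_one hτ0]; linarith)
      have hpk0 : 0 < (1 / τ) ^ k := by positivity
      have e0 : m + 2 * (k + 1) = m + 2 * k + 2 := by ring
      rw [e0]
      have hd : τ ≤ A + B * x (m + 2 * k + 3) + x (m + 2 * k + 2) + D * x (m + 2 * k + 1) := by
        have b1 := mul_le_mul_of_nonneg_left i4 hB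
        have b2 := mul_le_mul_of_nonneg_left i3 hD.le
        have b3 := h.nonneg (m + 2 * k + 2)
        rw [hτd]; linarith
      have s1 := h.one_step_le (m := m + 2 * k + 1) hτ0 hd
      have s1' : x (m + 2 * k + 2 + 2) ≤ x (m + 2 * k + 2) / τ := s1
      have s2 : x (m + 2 * k + 2) / τ ≤ ε * (1 / τ) ^ (k + 1) := by
        rw [pow_succ, ← mul_assoc, mul_one_div]
        exact div_le_div_of_nonneg_right i2 hτ0.le
      refine ⟨?_, s1'.trans s2, i4, ?_⟩
      · have : ε * (1 / τ) ^ (k + 1) * τ = ε * (1 / τ) ^ k := by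
          rw [pow_succ]; field_simp
        rw [this]; exact i2
      · have u1 : x (m + 2 * k + 2) ≤ ε := i2.trans (by nlinarith)
        have u2 : x (m + 2 * k + 2 + 2) ≤ ε := by
          refine (s1'.trans s2).trans ?_
          have : (1 / τ) ^ (k + 1) ≤ 1 := pow_le_one₀ (by positivity) (by rw [div_le_one hτ0]; linarith)
          nlinarith
        refine h.stay_above (m := m + 2 * k + 2) (σ := A + (B + D) * ε) (by nlinarith) hζ0
          (by linarith) ?_ i4
        have c1 := mul_le_mul_of_nonneg_left u2 hB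
        have c2 := mul_le_mul_of_nonneg_left u1 hD.le
        linarith
  have ha : Tendsto (fun k => x (m + 2 + 2 * k)) atTop (𝓝 0) := by
    have hgeo : Tendsto (fun k : ℕ => ε * (1 / τ) ^ k) atTop (𝓝 (ε * 0)) :=
      (tendsto_pow_atTop_nhds_zero_of_lt_one (by positivity)
        (by rw [div_lt_one hτ0]; exact hτ)).const_mul ε
    rw [mul_zero] at hgeo
    refine squeeze_zero (fun k => h.nonneg _) (fun k => ?_) hgeo
    have := (trap k).2.1
    have e : m + 2 + 2 * k = m + 2 * k + 2 := by ring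
    rw [e]; exact this
  have hz : Tendsto (fun k => x (m + 2 + 2 * k + 1)) atTop (𝓝 (1 - A)) := by
    rw [tendsto_order]
    constructor
    · intro b hb
      obtain ⟨ζ', hz1, hz2⟩ : ∃ ζ', max b 0 < ζ' ∧ ζ' < 1 - A := exists_between (max_lt hb (by linarith))
      have hζ'0 : 0 < ζ' := lt_of_le_of_lt (le_max_right _ _) hz1
      obtain ⟨ε', hε'0, hε'⟩ : ∃ ε', 0 < ε' ∧ (B + D) * ε' < 1 - A - ζ' := by
        have : (0 : ℝ) < (1 - A - ζ') / (B + D) := div_pos (by linarith) hBD0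
        obtain ⟨ε', h1, h2⟩ := exists_between this
        refine ⟨ε', h1, ?_⟩
        rw [lt_div_iff₀ hBD0] at h2; linarith
      obtain ⟨K, hK⟩ := (ha.eventually (gt_mem_nhds hε'0)).exists_forall_of_atTop
      set ρ := A + (B + D) * ε' + ζ' with hρ
      have hρ0 : 0 < ρ := by
        have : 0 ≤ (B + D) * ε' := mul_nonneg hBD0.le hε'0.le
        linarith
      have hρ1 : ρ < 1 := by linarith
      obtain ⟨J, hJ⟩ := exists_pow_lt_of_lt_one hζ0 hρ1
      rw [eventually_atTop]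
      refine ⟨K + J, fun k hk => ?_⟩
      obtain ⟨i, rfl⟩ := Nat.exists_eq_add_of_le hk
      have hzK : ζ ≤ x (m + 2 + 2 * K + 1) := by
        have := (trap (K + 1)).2.2.1
        have e : m + 2 * (K + 1) + 1 = m + 2 + 2 * K + 1 := by ring
        rw [e] at this; exact this
      have := h.grow hA hB hD (n := m + 2 + 2 * K) (M := J + i) hε'0.le hζ'0 (by linarith : A + (B + D) * ε' + ζ' < 1)
        hζ0 hzK (fun j _ => by
          have := (hK (K + j) (by omega)).le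
          have e : m + 2 + 2 * K + 2 * j = m + 2 + 2 * (K + j) := by ring
          rw [e]; exact this) (J + i) le_rfl
      have hbig : ζ' ≤ ζ / ρ ^ (J + i) := by
        have h1 : ρ ^ (J + i) ≤ ρ ^ J := pow_le_pow_of_le_one hρ0.le hρ1.le (by omega)
        have h3 : 1 < ζ / ρ ^ (J + i) := by rw [lt_div_iff₀ (pow_pos hρ0 _)]; linarith
        linarith
      rw [min_eq_left hbig] at this
      have e : m + 2 + 2 * K + 2 * (J + i) + 1 = m + 2 + 2 * (K + J + i) + 1 := by ring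
      rw [e] at this
      exact lt_of_lt_of_le (lt_of_le_of_lt (le_max_left _ _) hz1) this
    · intro b hb
      obtain ⟨u, hu1, hu2⟩ := exists_between hb
      obtain ⟨N, hN⟩ := h.ev_le hA hB hD hle (by linarith) hu1
      rw [eventually_atTop]
      exact ⟨N, fun k hk => lt_of_le_of_lt (hN _ (by omega)) hu2⟩
  exact ⟨m + 2, 0, 1 - A, ha, hz⟩

/-- all positive solutions bounded by one -/
lemma Sol.conv_pos (h : Sol A B D x) (hA : 0 ≤ A) (hB : 0 ≤ B) (hD : 0 < D)
    (hpos : ∀ n, 0 < x n) (hle : ∀ n, x n ≤ 1) : Conv x := by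
  rcases le_or_gt 1 A with hA1 | hA1
  · exact h.conv_bigA hA1 hB hD
  by_cases hlow : ∃ c > 0, ∃ N, ∀ n ≥ N, c ≤ x n
  · obtain ⟨c, hc0, N, hc⟩ := hlow
    apply Conv.of_shift (M := N)
    have hs := h.shift N
    by_cases h1 : ∃ n, TP (fun n => x (N + n)) n
    · obtain ⟨n, hn⟩ := h1; exact hs.conv_TP hA hB hD hn
    by_cases h2 : ∃ n, TM (fun n => x (N + n)) n
    · obtain ⟨n, hn⟩ := h2; exact hs.conv_TM hA hB hD hn
    push Not at h1 h2
    exact hs.conv_nonmono hA hB hD (fun n => hpos _) hc0 (fun n => hc _ (by omega)) h1 h2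
  · have hno : ∀ c > 0, ∀ N, ∃ n ≥ N, x n < c := by
      push Not at hlow
      exact hlow
    rcases lt_trichotomy (B + D) 1 with hlt | heq | hgt
    · obtain ⟨c, hc0, N, hc⟩ := h.low_lt hA hB hD hA1 hpos hle hlt
      obtain ⟨n, hn, hn'⟩ := hno c hc0 N
      linarith [hc n hn]
    · exact h.conv_neutral hA hB hD hA1 hpos hle heq hno
    · exact h.conv_gt hA hB hD hA1 hpos hle hgt hno

lemma Sol.conv_all (h : Sol A B D x) (hA : 0 ≤ A) (hB : 0 ≤ B) (hD : 0 < D) : Conv x := by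
  rcases eq_or_lt_of_le (h.nonneg 1) with h1 | h1
  · exact h.conv_zero hA hB hD (n := 0) h1.symm
  rcases eq_or_lt_of_le (h.nonneg 2) with h2 | h2
  · exact h.conv_zero hA hB hD (n := 1) h2.symm
  have hp : ∀ n, 0 < x (n + 1) ∧ 0 < x (n + 2) := by
    intro n
    induction n with
    | zero => exact ⟨h1, h2⟩
    | succ n ih =>
      refine ⟨ih.2, ?_⟩
      show 0 < x (n + 3)
      rw [h.step n]; exact div_pos ih.1 (h.den_pos n)
  apply Conv.of_shift (M := 3)
  refine (h.shift 3).conv_pos hA hB hD (fun n => ?_) (fun n => ?_)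
  · have := (hp (n + 2)).1
    have e : 3 + n = n + 2 + 1 := by ring
    simp only [e]; exact this
  · have := h.le_one hA hB hD n
    have e : 3 + n = n + 3 := by ring
    simp only [e]; exact this

/-- from convergence of the two classes to convergence to a period-two solution -/
lemma Sol.final (h : Sol A B D x) (hA : 0 ≤ A) (hB : 0 ≤ B) (hD : 0 < D) (hc : Conv x) :
    ∃ y : ℕ → ℝ, Sol A B D y ∧ (∀ n, y (n + 2) = y n) ∧
      Tendsto (fun n => x n - y n) atTop (𝓝 0) := by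
  obtain ⟨N, p, q, hp, hq⟩ := hc
  have p0 : 0 ≤ p := ge_of_tendsto' hp (fun k => h.nonneg _)
  have q0 : 0 ≤ q := ge_of_tendsto' hq (fun k => h.nonneg _)
  have hp1 : Tendsto (fun k => x (N + 2 * k + 2)) atTop (𝓝 p) := by
    have := (tendsto_add_atTop_iff_nat 1).mpr hp
    refine this.congr (fun k => ?_)
    congr 1
  have hq1 : Tendsto (fun k => x (N + 2 * k + 3)) atTop (𝓝 q) := by
    have := (tendsto_add_atTop_iff_nat 1).mpr hq
    refine this.congr (fun k => ?_)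
    congr 1
  have hp2 : Tendsto (fun k => x (N + 2 * k + 4)) atTop (𝓝 p) := by
    have := (tendsto_add_atTop_iff_nat 2).mpr hp
    refine this.congr (fun k => ?_)
    congr 1
  -- limit equations
  have eq1 : q * (A + B * p + q + D * p) = q := by
    have l1 : Tendsto (fun k => x (N + 2 * k + 3) * (A + B * x (N + 2 * k + 2) + x (N + 2 * k + 1) + D * x (N + 2 * k)))
        atTop (𝓝 (q * (A + B * p + q + D * p))) :=
      hq1.mul ((((tendsto_const_nhds).add (hp1.const_mul B)).add hq).add (hp.const_mul D))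
    have l2 := l1.congr (fun k => h.mul (N + 2 * k))
    exact tendsto_nhds_unique l2 hq
  have eq2 : p * (A + B * q + p + D * q) = p := by
    have l1 : Tendsto (fun k => x (N + 2 * k + 4) * (A + B * x (N + 2 * k + 3) + x (N + 2 * k + 2) + D * x (N + 2 * k + 1)))
        atTop (𝓝 (p * (A + B * q + p + D * q))) :=
      hp2.mul ((((tendsto_const_nhds).add (hq1.const_mul B)).add hp1).add (hq.const_mul D))
    have l2 := l1.congr (fun k => h.mul (N + 2 * k + 1))
    exact tendsto_nhds_unique l2 hp1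
  -- if A = 0 the limit is not zero
  have hnz : A = 0 → 0 < p + q := by
    intro hA0
    by_contra hcon
    have pz : p = 0 := by linarith
    have qz : q = 0 := by linarith
    subst pz; subst qz
    have hall : Tendsto (fun n => x (N + n)) atTop (𝓝 0) := by
      rw [Metric.tendsto_atTop]
      intro e he
      obtain ⟨K1, hK1⟩ := (Metric.tendsto_atTop.mp hp) e he
      obtain ⟨K2, hK2⟩ := (Metric.tendsto_atTop.mp hq) e he
      refine ⟨2 * (K1 + K2) + 1, fun n hn => ?_⟩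
      rcases Nat.even_or_odd' n with ⟨k, rfl | rfl⟩
      · exact hK1 k (by omega)
      · exact hK2 k (by omega)
    have hden : Tendsto (fun n => A + B * x (N + n + 2) + x (N + n + 1) + D * x (N + n)) atTop
        (𝓝 (0 + B * 0 + 0 + D * 0)) := by
      have t1 : Tendsto (fun n => x (N + n + 1)) atTop (𝓝 0) := (tendsto_add_atTop_iff_nat 1).mpr hall
      have t2 : Tendsto (fun n => x (N + n + 2)) atTop (𝓝 0) := (tendsto_add_atTop_iff_nat 2).mpr hall
      rw [hA0]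
      exact ((((tendsto_const_nhds).add (t2.const_mul B)).add t1).add (hall.const_mul D))
    simp only [mul_zero, add_zero] at hden
    obtain ⟨K, hK⟩ := (hden.eventually (gt_mem_nhds one_pos)).exists_forall_of_atTop
    -- some positive term beyond N + K + 1
    have hpm : ∃ m ≥ N + K + 1, 0 < x m := by
      by_contra hcon
      push Not at hcon
      have := h.den_pos (N + K + 1)
      have b1 := hcon (N + K + 1 + 2) (by omega)
      have b2 := hcon (N + K + 1 + 1) (by omega)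
      have b3 := hcon (N + K + 1) le_rfl
      have c1 := mul_nonpos_of_nonneg_of_nonpos hB b1
      have c2 := mul_nonpos_of_nonneg_of_nonpos hD.le b3
      linarith
    obtain ⟨m, hm, hxm⟩ := hpm
    have hinc : ∀ k, x m ≤ x (m + 2 * k) := by
      intro k
      induction k with
      | zero => simp
      | succ k ih =>
        obtain ⟨j, hj⟩ : ∃ j, m + 2 * k = N + (K + j) + 1 := ⟨m + 2 * k - (N + K + 1), by omega⟩
        have := h.one_step_ge (m := N + (K + j)) (ρ := 1) (hK (K + j) (by omega)).le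
        have e : m + 2 * (k + 1) = N + (K + j) + 3 := by omega
        rw [e]
        rw [hj] at ih
        rw [div_one] at this
        linarith
    have hlim : Tendsto (fun k => x (m + 2 * k)) atTop (𝓝 0) := by
      have hsub : Tendsto (fun k : ℕ => m - N + 2 * k) atTop atTop := by
        apply tendsto_atTop_mono (f := fun k => k) (fun k => by omega) tendsto_id
      refine (hall.comp hsub).congr (fun k => ?_)
      simp only [Function.comp]
      congr 1
      omega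
    have := ge_of_tendsto' hlim hinc
    linarith
  have hdp : 0 < A + (B + D) * q + p := by
    rcases eq_or_lt_of_le hA with hA0 | hA0
    · have := hnz hA0.symm
      rcases eq_or_lt_of_le q0 with hq0 | hq0
      · rw [← hA0, ← hq0]; rw [← hq0] at this; linarith
      · have : 0 < (B + D) * q := mul_pos (by linarith) hq0
        linarith
    · have : 0 ≤ (B + D) * q := mul_nonneg (by linarith) q0
      linarith
  have hdq : 0 < A + (B + D) * p + q := by
    rcases eq_or_lt_of_le hA with hA0 | hA0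
    · have := hnz hA0.symm
      rcases eq_or_lt_of_le p0 with hp0 | hp0
      · rw [← hA0, ← hp0]; rw [← hp0] at this; linarith
      · have : 0 < (B + D) * p := mul_pos (by linarith) hp0
        linarith
    · have : 0 ≤ (B + D) * p := mul_nonneg (by linarith) p0
      linarith
  let y : ℕ → ℝ := fun n => if Even (n + N) then p else q
  have hy2 : ∀ n, y (n + 2) = y n := by
    intro n
    have : Even (n + 2 + N) ↔ Even (n + N) := by
      constructor <;> (rintro ⟨m, hm⟩; grind)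
    simp only [y, this]
  have hy0 : ∀ n, 0 ≤ y n := by
    intro n; simp only [y]; split_ifs <;> assumption
  have hcase : ∀ n, (y n = p ∧ y (n + 1) = q) ∨ (y n = q ∧ y (n + 1) = p) := by
    intro n
    rcases Nat.even_or_odd (n + N) with he | ho
    · left
      have h1 : ¬ Even (n + 1 + N) := by
        rw [Nat.not_even_iff_odd]; obtain ⟨m, hm⟩ := he; exact ⟨m, by omega⟩
      exact ⟨by simp only [y, if_pos he], by simp only [y, if_neg h1]⟩
    · right
      have h1 : Even (n + 1 + N) := by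
        obtain ⟨m, hm⟩ := ho; exact ⟨m + 1, by omega⟩
      have h0 : ¬ Even (n + N) := by rwa [Nat.not_even_iff_odd]
      exact ⟨by simp only [y, if_neg h0], by simp only [y, if_pos h1]⟩
  refine ⟨y, ⟨hy0, ?_, ?_⟩, hy2, ?_⟩
  · intro n
    rw [hy2 n]
    rcases hcase n with ⟨a, b⟩ | ⟨a, b⟩
    · rw [a, b]; linarith
    · rw [a, b]; linarith
  · intro n
    have e3 : y (n + 3) = y (n + 1) := hy2 (n + 1)
    rw [hy2 n, e3]
    rcases hcase n with ⟨a, b⟩ | ⟨a, b⟩
    · rw [a, b]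
      have : A + B * p + q + D * p ≠ 0 := by
        have : A + B * p + q + D * p = A + (B + D) * p + q := by ring
        rw [this]; exact hdq.ne'
      rw [eq_div_iff this]; exact eq1
    · rw [a, b]
      have : A + B * q + p + D * q ≠ 0 := by
        have : A + B * q + p + D * q = A + (B + D) * q + p := by ring
        rw [this]; exact hdp.ne'
      rw [eq_div_iff this]; exact eq2
  · rw [Metric.tendsto_atTop]
    intro e he
    obtain ⟨K1, hK1⟩ := (Metric.tendsto_atTop.mp hp) e he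
    obtain ⟨K2, hK2⟩ := (Metric.tendsto_atTop.mp hq) e he
    refine ⟨N + 2 * (K1 + K2) + 1, fun n hn => ?_⟩
    obtain ⟨j, rfl⟩ := Nat.exists_eq_add_of_le (show N ≤ n by omega)
    rcases Nat.even_or_odd' j with ⟨k, rfl | rfl⟩
    · have hE : Even (N + 2 * k + N) := ⟨N + k, by ring⟩
      have : y (N + 2 * k) = p := by simp only [y, if_pos hE]
      rw [this, Real.dist_eq, sub_zero, ← Real.dist_eq]
      exact hK1 k (by omega)
    · have hE : ¬ Even (N + (2 * k + 1) + N) := by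
        rw [Nat.not_even_iff_odd]; exact ⟨N + k, by ring⟩
      have : y (N + (2 * k + 1)) = q := by simp only [y, if_neg hE]
      rw [this, Real.dist_eq, sub_zero, ← Real.dist_eq]
      exact hK2 k (by omega)

end finish

end Pool.Agent.RatDiff.AlphaZero
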